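import Mathlib

/-!
# Permutations of prime order and Fourier analysis modulo a prime number
-/

set_option autoImplicit false

namespace Pool.Agent.K3h98.IT

open Function Polynomial

section comb

variable {X : Type*} {τ c : X → X} {q : ℕ}

theorem dvd_of_iter (hq : q.Prime) (x : X) (h1 : τ^[q] x = x) (h2 : τ x ≠ x) (n : ℕ)
    (hn : τ^[n] x = x) : q ∣ n := by
  have h3 : minimalPeriod τ x ∣ q := IsPeriodicPt.minimalPeriod_dvd h1
  rcases (Nat.dvd_prime hq).1 h3 with h | h
  · exact absurd (minimalPeriod_eq_one_iff_isFixedPt.1 h) h2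
  · rw [← h]
    exact IsPeriodicPt.minimalPeriod_dvd hn

theorem iter_mul (x : X) (h1 : τ^[q] x = x) (n : ℕ) : τ^[q * n] x = x := by
  rw [iterate_mul]
  induction n with
  | zero => rfl
  | succ n ih => rw [iterate_succ_apply, h1, ih]

theorem modEq_of_iter (hinj : Injective τ) (hq : q.Prime) (x : X) (h1 : τ^[q] x = x)
    (h2 : τ x ≠ x) (a b : ℕ) (ha : a < q) (hb : b < q) (hn : τ^[a] x = τ^[b] x) : a = b := by
  have key : ∀ a b : ℕ, a ≤ b → b < q → τ^[a] x = τ^[b] x → a = b := by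
    intro a b hab hb hn
    have h3 : τ^[a] x = τ^[a] (τ^[b - a] x) := by
      rw [← iterate_add_apply, Nat.add_sub_cancel' hab]
      exact hn
    have h4 := (hinj.iterate a) h3
    have h5 := dvd_of_iter hq x h1 h2 _ h4.symm
    have h6 := Nat.eq_zero_of_dvd_of_lt h5 (lt_of_le_of_lt (Nat.sub_le _ _) hb)
    omega
  rcases le_total a b with h | h
  · exact key a b h hb hn
  · exact (key b a h ha hn.symm).symm

theorem comm_iter (hc : ∀ x, c (τ x) = τ (c x)) (n : ℕ) (x : X) :
    c (τ^[n] x) = τ^[n] (c x) := by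
  induction n generalizing x with
  | zero => rfl
  | succ n ih => rw [iterate_succ_apply, iterate_succ_apply, ih, hc]

theorem ne_of_iter (hinj : Injective τ) (hq : q.Prime) (hq2 : q ≠ 2)
    (hc : ∀ x, c (τ x) = τ (c x)) (hcc : ∀ x, c (c x) = x) (hne : ∀ x, c x ≠ x) (x : X)
    (h1 : τ^[q] x = x) (h2 : τ x ≠ x) (a b : ℕ) (ha : a < q) :
    c (τ^[a] x) ≠ τ^[b] x := by
  intro h
  have h3 : τ^[a] (τ^[b + (q - a)] x) = τ^[a] (c x) := by
    rw [← comm_iter hc, h, ← iterate_add_apply, show a + (b + (q - a)) = b + q by omega,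
      iterate_add_apply, h1]
  have h4 := (hinj.iterate a) h3
  set m := b + (q - a)
  have h5 : τ^[m + m] x = x := by
    rw [iterate_add_apply, h4, ← comm_iter hc, h4, hcc]
  have h6 := dvd_of_iter hq x h1 h2 _ h5
  have h7 : q ∣ 2 * m := by rwa [two_mul]
  have h8 : q ∣ m := by
    refine Nat.Coprime.dvd_of_dvd_mul_left ?_ h7
    exact (Nat.coprime_primes hq Nat.prime_two).2 hq2
  obtain ⟨n, hn⟩ := h8
  rw [hn, iter_mul x h1] at h4
  exact hne x h4.symm

/-- The orbit and the conjugate orbit. -/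
theorem inj_orbit (hinj : Injective τ) (hq : q.Prime) (hq2 : q ≠ 2)
    (hc : ∀ x, c (τ x) = τ (c x)) (hcc : ∀ x, c (c x) = x) (hne : ∀ x, c x ≠ x) (x : X)
    (h1 : τ^[q] x = x) (h2 : τ x ≠ x) :
    Injective (Sum.elim (fun k : Fin q => τ^[k] x) (fun k : Fin q => c (τ^[k] x))) := by
  rintro (a | a) (b | b) h
  · exact congrArg Sum.inl (Fin.ext (modEq_of_iter hinj hq x h1 h2 a b a.2 b.2 h))
  · exact absurd h.symm (ne_of_iter hinj hq hq2 hc hcc hne x h1 h2 b a b.2)
  · exact absurd h (ne_of_iter hinj hq hq2 hc hcc hne x h1 h2 a b a.2)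
  · have h3 : c (τ^[a] x) = c (τ^[b] x) := h
    have h4 := congrArg c h3
    rw [hcc, hcc] at h4
    exact congrArg Sum.inr (Fin.ext (modEq_of_iter hinj hq x h1 h2 a b a.2 b.2 h4))

theorem card_le (hX : Finite X) (hinj : Injective τ) (hq : q.Prime) (hq2 : q ≠ 2)
    (hc : ∀ x, c (τ x) = τ (c x)) (hcc : ∀ x, c (c x) = x) (hne : ∀ x, c x ≠ x) (x : X)
    (h1 : τ^[q] x = x) (h2 : τ x ≠ x) : 2 * q ≤ Nat.card X := by
  have h3 := Nat.card_le_card_of_injective _ (inj_orbit hinj hq hq2 hc hcc hne x h1 h2)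
  rw [Nat.card_sum, Nat.card_fin] at h3
  omega

theorem cover (hX : Finite X) (hinj : Injective τ) (hq : q.Prime) (hq2 : q ≠ 2)
    (hc : ∀ x, c (τ x) = τ (c x)) (hcc : ∀ x, c (c x) = x) (hne : ∀ x, c x ≠ x) (x : X)
    (h1 : τ^[q] x = x) (h2 : τ x ≠ x) (hcard : Nat.card X = 2 * q) :
    Bijective (Sum.elim (fun k : Fin q => τ^[k] x) (fun k : Fin q => c (τ^[k] x))) := by
  have _ := Fintype.ofFinite X
  refine (Fintype.bijective_iff_injective_and_card _).2
    ⟨inj_orbit hinj hq hq2 hc hcc hne x h1 h2, ?_⟩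
  rw [Fintype.card_sum, Fintype.card_fin, ← Nat.card_eq_fintype_card, hcard, two_mul]

theorem coverZ [Fact q.Prime] (hX : Finite X) (hinj : Injective τ) (hq2 : q ≠ 2)
    (hc : ∀ x, c (τ x) = τ (c x)) (hcc : ∀ x, c (c x) = x) (hne : ∀ x, c x ≠ x) (x : X)
    (h1 : τ^[q] x = x) (h2 : τ x ≠ x) (hcard : Nat.card X = 2 * q) :
    Bijective (Sum.elim (fun k : ZMod q => τ^[k.val] x) (fun k : ZMod q => c (τ^[k.val] x))) := by
  have hq : q.Prime := Fact.out
  have _ := Fintype.ofFinite X
  refine (Fintype.bijective_iff_injective_and_card _).2 ⟨?_, ?_⟩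
  · rintro (a | a) (b | b) h
    · exact congrArg Sum.inl (ZMod.val_injective q (modEq_of_iter hinj hq x h1 h2 _ _
        (ZMod.val_lt a) (ZMod.val_lt b) h))
    · exact absurd h.symm (ne_of_iter hinj hq hq2 hc hcc hne x h1 h2 _ _ (ZMod.val_lt b))
    · exact absurd h (ne_of_iter hinj hq hq2 hc hcc hne x h1 h2 _ _ (ZMod.val_lt a))
    · have h3 : c (τ^[a.val] x) = c (τ^[b.val] x) := h
      have h4 := congrArg c h3
      rw [hcc, hcc] at h4
      exact congrArg Sum.inr (ZMod.val_injective q (modEq_of_iter hinj hq x h1 h2 _ _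
        (ZMod.val_lt a) (ZMod.val_lt b) h4))
  · rw [Fintype.card_sum, ZMod.card, ← Nat.card_eq_fintype_card, hcard, two_mul]

theorem iter_mod (x : X) (h1 : τ^[q] x = x) (n : ℕ) : τ^[n % q] x = τ^[n] x := by
  conv_rhs => rw [← Nat.mod_add_div n q]
  rw [iterate_add_apply, iter_mul x h1]

theorem exists_elt {G Y : Type*} [Group G] [Finite G] [Finite Y] [MulAction G Y]
    [MulAction.IsPretransitive G Y] (hq : q.Prime) (hne : Nonempty Y)
    (hd : q ∣ Nat.card Y) : ∃ g : G, (∀ y : Y, g ^ q • y = y) ∧ ∃ y : Y, g • y ≠ y := by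
  classical
  obtain ⟨y₀⟩ := hne
  have hF : Fact q.Prime := ⟨hq⟩
  let H : Subgroup (Equiv.Perm Y) := (MulAction.toPermHom G Y).range
  have htr : MulAction.IsPretransitive H Y := by
    refine ⟨fun x y => ?_⟩
    obtain ⟨g, hg⟩ := MulAction.exists_smul_eq G x y
    exact ⟨⟨MulAction.toPermHom G Y g, g, rfl⟩, hg⟩
  have h1 : Nat.card Y ∣ Nat.card H := by
    rw [← MulAction.index_stabilizer_of_transitive H y₀]
    exact Subgroup.index_dvd_card _
  obtain ⟨⟨x, g, hg⟩, hx⟩ := exists_prime_orderOf_dvd_card' q (hd.trans h1)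
  have hx' : orderOf x = q := by
    rw [← hx]
    exact (Subgroup.orderOf_mk _ _).symm
  refine ⟨g, fun y => ?_, ?_⟩
  · have h2 : (MulAction.toPermHom G Y (g ^ q)) y = y := by
      rw [map_pow, hg, ← hx', pow_orderOf_eq_one]
      rfl
    exact h2
  · by_contra hall
    push Not at hall
    have h2 : x = 1 := by
      rw [← hg]
      ext y
      exact hall y
    rw [h2, orderOf_one] at hx'
    exact hq.one_lt.ne hx'

end comb

section fourier

variable {q : ℕ} [hF : Fact q.Prime]

theorem char_eq_pow (k : ZMod q) :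
    (ZMod.stdAddChar (N := q) k : ℂ) = (ZMod.stdAddChar (N := q) 1 : ℂ) ^ k.val := by
  rw [← AddChar.map_nsmul_eq_pow, nsmul_eq_mul, mul_one, ZMod.natCast_zmod_val]

theorem char_prim : IsPrimitiveRoot (ZMod.stdAddChar (N := q) 1 : ℂ) q := by
  have h1 := ZMod.stdAddChar_coe (N := q) 1
  rw [Int.cast_one] at h1
  rw [h1, Int.cast_one, mul_one]
  exact Complex.isPrimitiveRoot_exp q hF.out.ne_zero

theorem const_of_char (a : ZMod q → ℚ)
    (h : ∑ k, (a k : ℂ) * (ZMod.stdAddChar (N := q) k : ℂ) = 0) (k : ZMod q) : a k = a 0 := by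
  have hsum : ∑ k, (ZMod.stdAddChar (N := q) k : ℂ) = 0 := by
    apply AddChar.sum_eq_zero_of_ne_one
    intro h0
    have h1 := char_prim (q := q)
    rw [h0, AddChar.one_apply] at h1
    have h2 := h1.eq_orderOf
    rw [orderOf_one] at h2
    exact hF.out.one_lt.ne' h2
  have key : ∀ k, a k = a (-1) := by
    intro k
    set P : ℚ[X] := ∑ k : ZMod q, C (a k - a (-1)) * X ^ k.val with hP
    have hroot : aeval (ZMod.stdAddChar (N := q) 1 : ℂ) P = 0 := by
      rw [hP, map_sum]
      have h1 : ∀ k : ZMod q, aeval (ZMod.stdAddChar (N := q) 1 : ℂ)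
          (C (a k - a (-1)) * X ^ k.val) = (a k : ℂ) * (ZMod.stdAddChar (N := q) k : ℂ) -
            (a (-1) : ℂ) * (ZMod.stdAddChar (N := q) k : ℂ) := by
        intro k
        rw [map_mul, aeval_C, map_pow, aeval_X, ← char_eq_pow, ← sub_mul]
        congr 1
        rw [eq_ratCast, Rat.cast_sub]
      rw [Finset.sum_congr rfl fun k _ => h1 k, Finset.sum_sub_distrib, h, ← Finset.mul_sum, hsum,
        mul_zero, sub_zero]
    have hcoef : ∀ n, P.coeff n = ∑ k : ZMod q, if n = k.val then a k - a (-1) else 0 := by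
      intro n
      rw [hP, finsetSum_coeff]
      refine Finset.sum_congr rfl fun k _ => ?_
      rw [coeff_C_mul, coeff_X_pow]
      split_ifs <;> simp
    have hval : (-1 : ZMod q).val = q - 1 := by
      obtain ⟨n, hn⟩ : ∃ n, q = n + 1 := ⟨q - 1, by have := hF.out.one_lt; omega⟩
      subst hn
      exact ZMod.val_neg_one n
    have hdeg : P.degree < ((q - 1 : ℕ) : WithBot ℕ) := by
      rw [degree_lt_iff_coeff_zero]
      intro n hn
      rw [hcoef]
      refine Finset.sum_eq_zero fun k _ => ?_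
      split_ifs with h1
      · have h2 : k.val < q := ZMod.val_lt k
        have h3 : k.val = (-1 : ZMod q).val := by rw [hval]; omega
        have h4 := ZMod.val_injective q h3
        rw [h4, sub_self]
      · rfl
    have hP0 : P = 0 := by
      by_contra hne
      have h1 := minpoly.degree_le_of_ne_zero ℚ _ hne hroot
      rw [← cyclotomic_eq_minpoly_rat (char_prim (q := q)) hF.out.pos, degree_cyclotomic,
        Nat.totient_prime hF.out] at h1
      exact absurd hdeg (not_lt.2 h1)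
    have h1 := hcoef k.val
    rw [hP0, coeff_zero, Finset.sum_eq_single k] at h1
    · rw [if_pos rfl] at h1
      exact sub_eq_zero.1 h1.symm
    · intro k' _ hk
      rw [if_neg]
      intro h2
      exact hk (ZMod.val_injective q h2.symm)
    · intro h
      exact absurd (Finset.mem_univ _) h
  rw [key k, key 0]

/-- The main point: two rational functions modulo a prime number all whose correlations vanish; one of
them is constant. -/
theorem const_or_const (w u : ZMod q → ℚ) (h : ∀ l, ∑ k, w (k + l) * u k = 0) :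
    (∀ k, w k = w 0) ∨ (∀ k, u k = u 0) := by
  have h1 : (∑ j, (w j : ℂ) * (ZMod.stdAddChar (N := q) j : ℂ)) *
      (∑ k, (u k : ℂ) * (ZMod.stdAddChar (N := q) (-k) : ℂ)) = 0 := by
    rw [Finset.sum_mul_sum, Finset.sum_comm]
    have h2 : ∀ k : ZMod q, ∑ j, (w j : ℂ) * (ZMod.stdAddChar (N := q) j : ℂ) *
        ((u k : ℂ) * (ZMod.stdAddChar (N := q) (-k) : ℂ)) =
          ∑ l, (w (k + l) : ℂ) * (u k : ℂ) * (ZMod.stdAddChar (N := q) l : ℂ) := by
      intro k
      rw [← Equiv.sum_comp (Equiv.addLeft k)]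
      refine Finset.sum_congr rfl fun l _ => ?_
      rw [Equiv.coe_addLeft]
      have h3 : (ZMod.stdAddChar (N := q) (k + l) : ℂ) * (ZMod.stdAddChar (N := q) (-k) : ℂ) =
          (ZMod.stdAddChar (N := q) l : ℂ) := by
        rw [← AddChar.map_add_eq_mul, add_comm k l, add_neg_cancel_right]
      calc _ = (w (k + l) : ℂ) * (u k : ℂ) * ((ZMod.stdAddChar (N := q) (k + l) : ℂ) *
            (ZMod.stdAddChar (N := q) (-k) : ℂ)) := by ring
        _ = _ := by rw [h3]
    rw [Finset.sum_congr rfl fun k _ => h2 k, Finset.sum_comm]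
    refine Finset.sum_eq_zero fun l _ => ?_
    rw [← Finset.sum_mul]
    have h4 : ∑ k, (w (k + l) : ℂ) * (u k : ℂ) = ((∑ k, w (k + l) * u k : ℚ) : ℂ) := by
      push_cast
      rfl
    rw [h4, h l, Rat.cast_zero, zero_mul]
  rcases mul_eq_zero.1 h1 with h2 | h2
  · exact Or.inl (const_of_char w h2)
  · right
    have h3 : ∑ k, ((fun k => u (-k)) k : ℂ) * (ZMod.stdAddChar (N := q) k : ℂ) = 0 := by
      rw [← Equiv.sum_comp (Equiv.neg (ZMod q))]
      rw [← h2]
      refine Finset.sum_congr rfl fun k _ => ?_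
      simp only [Equiv.neg_apply, neg_neg]
    have h4 := const_of_char (fun k => u (-k)) h3
    intro k
    have h5 := h4 (-k)
    simp only [neg_neg, neg_zero] at h5
    exact h5

end fourier

end Pool.Agent.K3h98.IT
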