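import Pool.Agent.K3h98.IT.Cyc
import Pool.Agent.TH117.GN.Main

/-!
# Towers of factors of abelian varieties over finite fields: criteria and applications
-/

set_option autoImplicit false

namespace Pool.Agent.K3h98.IT

open NumberField Module Pool.Agent.H204R3.CM Pool.Agent.W547.KB Pool.Agent.W495.TA
  Pool.Agent.W495.TC Pool.Agent.W495.FM Pool.Agent.TH117 Pool.Agent.TH117.BL Pool.Agent.TH117.GN

theorem tower_criteria : TowerCriteria := by
  refine ⟨?_, fun E _ _ _ q h => irreducible_of_prime h, fun E _ _ _ h => irreducible_of_cycle h⟩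
  intro p _ ν Z F i hF hi hss h
  rcases h with ⟨hirr, hg⟩ | ⟨q, hq, hdeg⟩
  · exact IsTower.step F i hF hi (nondegenerate_of_irreducible Z i hirr hss)
      (free_of_irreducible Z F i hirr hg)
  · exact IsTower.step F i hF hi (nondegenerate_of_irreducible Z i (irreducible_of_prime hq) hss)
      (free_of_prime Z F i hq hdeg)

variable {p : ℕ} [Fact p.Prime] {ν : PadicAlgCl p ≃+* ℂ}

theorem elem_of_towerAV {Y : RedAV p ν} (h : IsTowerAV Y) :
    ∃ Z : RedAV p ν, HasElementaryRelations Z ∧ IsPowersTimesSupersingular Z Y := by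
  obtain ⟨Z, h1, h2⟩ := h
  exact ⟨Z, hasElementaryRelations Z h1, h2⟩

theorem tb_tower {Ω V : Type} [Field Ω] [IsAlgClosed Ω] [CharZero Ω] {T : Homology Ω V}
    (hT : IsHomology T) {X : V} (hX : Generated T (IsTowerAbelian p ν T) X) : TB T X := by
  refine tb_generated hT (fun X hX => ?_) hX
  obtain ⟨Y, C, D, g, h1, hC, hD, hX⟩ := hX
  obtain ⟨Z, h2, h3⟩ := elem_of_towerAV h1
  exact tb_abelian hT hC (tateHolds_elem h2 h3 hC) hD hX

theorem onto_tower {Ω V : Type} [Field Ω] [IsAlgClosed Ω] [CharZero Ω] {T : Homology Ω V}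
    (hT : IsHomology T) (hW : HasWeights T) {X : V}
    (hX : Spread T (fun X => Generated T (IsTowerAbelian p ν T) X ∨ ∀ i, IsOnto T X i) X)
    (i : ℤ) : IsOnto T X i := by
  refine onto_spread hT hW (fun X h1 i => ?_) hX i
  rcases h1 with h1 | h1
  · exact ((tb_tower hT h1).iso hT i).1
  · exact h1 i

end Pool.Agent.K3h98.IT
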