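import Pool.Agent.K3h98.IT.Defs
import Pool.Agent.W495.FM.HomDefs

/-!
# Towers of factors of abelian varieties over finite fields: criteria, and schemes generated by them
(definitions)
-/

set_option autoImplicit false

namespace Pool.Agent.K3h98.IT

open NumberField Module Pool.Agent.H204R3.CM Pool.Agent.W547.KB Pool.Agent.W495.TA
  Pool.Agent.TH117.BL

/-- The degree of the number field `E` is a power of two, greater than one, and some automorphism of the
field of complex numbers permutes the complex embeddings of `E` in one cycle (for instance, `E` is a
cyclic extension of the rational numbers of such a degree). -/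
def IsTwoPowerCycle (E : Type) [Field E] [NumberField E] : Prop :=
  (∃ n : ℕ, finrank ℚ E = 2 ^ (n + 1)) ∧
    ∃ g : ℂ ≃+* ℂ, ∀ φ ψ : E →+* ℂ, ∃ k : ℕ, (fun χ : E →+* ℂ => (g : ℂ →+* ℂ).comp χ)^[k] φ = ψ

/-- Criteria for towers. Let `F` be a tower of factors of `Z` and let `i` be a factor that is not
supersingular, with the CM field `E`. Then `i` can be adjoined to the tower in each of the following
cases:

* `E` is irreducible, and some automorphism of the field of complex numbers which is the identity on the
  conjugates of the CM fields of the factors in `F` is not the identity on some `φ (E)`;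
* `E` has degree `2 q`, with an odd prime number `q`, it contains no imaginary quadratic field, and the
  CM fields of the factors in `F` have degrees less than `2 q`.

CM fields of degree `2 q`, with an odd prime number `q`, without imaginary quadratic subfields, and CM
fields of two-power degree whose embeddings are permuted in one cycle by some automorphism of the field
of complex numbers, are irreducible. -/
def TowerCriteria : Prop :=
  (∀ (p : ℕ) [Fact p.Prime] (ν : PadicAlgCl p ≃+* ℂ) (Z : RedAV p ν) (F : Set Z.X.I) (i : Z.X.I),
    IsTower Z F → i ∉ F → ¬ Pool.Agent.W495.TC.IsSupersingular Z i →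
      ((IsIrreducibleCM (Z.X.factor i).E ∧
          ∃ g : ℂ ≃+* ℂ, (∀ k ∈ F, Fixes g (Z.X.factor k).E) ∧ ¬ Fixes g (Z.X.factor i).E) ∨
        ∃ q : ℕ, IsPrimeCM (Z.X.factor i).E q ∧ ∀ k ∈ F, finrank ℚ (Z.X.factor k).E < 2 * q) →
      IsTower Z (insert i F)) ∧
  (∀ (E : Type) [Field E] [NumberField E] [IsCMField E] (q : ℕ), IsPrimeCM E q →
    IsIrreducibleCM E) ∧
  (∀ (E : Type) [Field E] [NumberField E] [IsCMField E], IsTwoPowerCycle E → IsIrreducibleCM E)

open Pool.Agent.W495.FM in
/-- The groups of motivic and of `ℓ`-adic homology of `X` are those of an abelian variety `Y` which is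
isogenous, over an algebraic closure, to a product of a supersingular abelian variety and of powers of
the factors of an abelian variety whose factors form a tower. -/
def IsTowerAbelian (p : ℕ) [Fact p.Prime] (ν : PadicAlgCl p ≃+* ℂ) {Ω V : Type} [Field Ω]
    [CharZero Ω] (T : Homology Ω V) (X : V) : Prop :=
  ∃ (Y : RedAV p ν) (C : Cycles Ω Y) (D : Motivic C) (g : ℕ), IsTowerAV Y ∧ IsChow C ∧
    IsMotivic D ∧ IsAbelian T X D g

end Pool.Agent.K3h98.IT
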