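import Pool.Agent.K3h98.IT.Move
import Pool.Agent.K3h98.IT.CritDefs

/-!
# CM fields of two-power degree with an automorphism that permutes the embeddings in one cycle
-/

set_option autoImplicit false
set_option linter.unusedSectionVars false

namespace Pool.Agent.K3h98.IT

open NumberField Module Function Polynomial

section fourier

theorem sum_zmod {M : Type*} [AddCommMonoid M] {N : ℕ} [NeZero N] (f : ZMod N → M) :
    ∑ k, f k = ∑ k ∈ Finset.range N, f (k : ZMod N) := by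
  refine Finset.sum_bij' (fun k _ => k.val) (fun k _ => (k : ZMod N)) ?_ ?_ ?_ ?_ ?_
  · intro k _
    exact Finset.mem_range.2 (ZMod.val_lt k)
  · intro k _
    exact Finset.mem_univ _
  · intro k _
    exact ZMod.natCast_zmod_val k
  · intro k hk
    exact ZMod.val_natCast_of_lt (Finset.mem_range.1 hk)
  · intro k _
    rw [ZMod.natCast_zmod_val]

theorem char_eq_pow' {N : ℕ} [NeZero N] (k : ℕ) :
    (ZMod.stdAddChar (N := N) (k : ZMod N) : ℂ) = (ZMod.stdAddChar (N := N) 1 : ℂ) ^ k := by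
  rw [← AddChar.map_nsmul_eq_pow, nsmul_eq_mul, mul_one]

theorem char_prim' {N : ℕ} [NeZero N] : IsPrimitiveRoot (ZMod.stdAddChar (N := N) 1 : ℂ) N := by
  have h1 := ZMod.stdAddChar_coe (N := N) 1
  rw [Int.cast_one] at h1
  rw [h1, Int.cast_one, mul_one]
  exact Complex.isPrimitiveRoot_exp N (NeZero.ne N)

theorem zero_of_char {n : ℕ} (a : ZMod (2 ^ (n + 1)) → ℚ)
    (ha : ∀ k, a (k + ((2 ^ n : ℕ) : ZMod (2 ^ (n + 1)))) = -a k)
    (h : ∑ k, (a k : ℂ) * (ZMod.stdAddChar (N := 2 ^ (n + 1)) k : ℂ) = 0) : a = 0 := by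
  set ζ : ℂ := (ZMod.stdAddChar (N := 2 ^ (n + 1)) 1 : ℂ) with hζ
  have hprim : IsPrimitiveRoot ζ (2 ^ (n + 1)) := char_prim'
  have hhalf : ζ ^ (2 ^ n) = -1 := by
    have h1 : ζ ^ (2 ^ n) * ζ ^ (2 ^ n) = 1 := by
      rw [← pow_add, ← two_mul, ← pow_succ']
      exact hprim.pow_eq_one
    rcases mul_self_eq_one_iff.1 h1 with h2 | h2
    · exfalso
      have h3 := hprim.dvd_of_pow_eq_one _ h2
      have h4 := Nat.le_of_dvd (by positivity) h3
      have h5 : 2 ^ (n + 1) = 2 * 2 ^ n := by ring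
      have h6 : 0 < 2 ^ n := by positivity
      omega
    · exact h2
  have hs : ∑ k ∈ Finset.range (2 ^ n), (a (k : ZMod (2 ^ (n + 1))) : ℂ) * ζ ^ k = 0 := by
    rw [sum_zmod] at h
    obtain ⟨f, hf⟩ : ∃ f : ℕ → ℂ, ∀ k : ℕ, f k = (a (k : ZMod (2 ^ (n + 1))) : ℂ) *
      (ZMod.stdAddChar (N := 2 ^ (n + 1)) (k : ZMod (2 ^ (n + 1))) : ℂ) := ⟨_, fun _ => rfl⟩
    rw [← Finset.sum_congr rfl fun k _ => hf k] at h
    have e : 2 ^ (n + 1) = 2 ^ n + 2 ^ n := by ring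
    rw [e, Finset.sum_range_add] at h
    have h1 : ∀ k : ℕ, f (2 ^ n + k) = f k := by
      intro k
      have h5 : ((2 ^ n + k : ℕ) : ZMod (2 ^ (n + 1))) =
          (k : ZMod (2 ^ (n + 1))) + ((2 ^ n : ℕ) : ZMod (2 ^ (n + 1))) := by
        push_cast
        ring
      have h6 : a ((2 ^ n + k : ℕ) : ZMod (2 ^ (n + 1))) = -a (k : ZMod (2 ^ (n + 1))) := by
        rw [h5, ha]
      rw [hf, hf, char_eq_pow', char_eq_pow', ← hζ, pow_add ζ, hhalf, h6]
      push_cast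
      ring
    rw [Finset.sum_congr rfl fun k _ => h1 k, ← two_mul] at h
    have h2 := (mul_eq_zero.1 h).resolve_left two_ne_zero
    rw [← h2]
    exact Finset.sum_congr rfl fun k _ => by rw [hf, char_eq_pow']
  set P : ℚ[X] := ∑ k ∈ Finset.range (2 ^ n), C (a (k : ZMod (2 ^ (n + 1)))) * X ^ k with hP
  have hroot : aeval ζ P = 0 := by
    rw [hP, map_sum, ← hs]
    refine Finset.sum_congr rfl fun k _ => ?_
    rw [map_mul, aeval_C, map_pow, aeval_X, eq_ratCast]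
  have hcoef : ∀ m, P.coeff m = if m < 2 ^ n then a (m : ZMod (2 ^ (n + 1))) else 0 := by
    intro m
    rw [hP, finsetSum_coeff]
    simp only [coeff_C_mul, coeff_X_pow, mul_ite, mul_one, mul_zero]
    rw [Finset.sum_ite_eq]
    simp only [Finset.mem_range]
  have hdeg : P.degree < ((2 ^ n : ℕ) : WithBot ℕ) := by
    rw [degree_lt_iff_coeff_zero]
    intro m hm
    rw [hcoef, if_neg (not_lt.2 hm)]
  have hP0 : P = 0 := by
    by_contra hne
    have h1 := minpoly.degree_le_of_ne_zero ℚ _ hne hroot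
    rw [← cyclotomic_eq_minpoly_rat hprim (by positivity), degree_cyclotomic,
      Nat.totient_prime_pow_succ Nat.prime_two, Nat.add_one_sub_one, mul_one] at h1
    exact absurd hdeg (not_lt.2 h1)
  have hlow : ∀ m : ℕ, m < 2 ^ n → a (m : ZMod (2 ^ (n + 1))) = 0 := by
    intro m hm
    have h1 := hcoef m
    rw [hP0, coeff_zero, if_pos hm] at h1
    exact h1.symm
  funext k
  rw [Pi.zero_apply, ← ZMod.natCast_zmod_val k]
  by_cases hk : k.val < 2 ^ n
  · exact hlow _ hk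
  · have h1 : k.val < 2 ^ (n + 1) := ZMod.val_lt k
    have h2 : k.val = (k.val - 2 ^ n) + 2 ^ n := by omega
    rw [h2, Nat.cast_add, ha, hlow _ (by omega), neg_zero]

theorem zero_or_zero {n : ℕ} (w u : ZMod (2 ^ (n + 1)) → ℚ)
    (hw : ∀ k, w (k + ((2 ^ n : ℕ) : ZMod (2 ^ (n + 1)))) = -w k)
    (hu : ∀ k, u (k + ((2 ^ n : ℕ) : ZMod (2 ^ (n + 1)))) = -u k)
    (h : ∀ l, ∑ k, w (k + l) * u k = 0) : w = 0 ∨ u = 0 := by
  have h1 : (∑ j, (w j : ℂ) * (ZMod.stdAddChar (N := 2 ^ (n + 1)) j : ℂ)) *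
      (∑ k, (u k : ℂ) * (ZMod.stdAddChar (N := 2 ^ (n + 1)) (-k) : ℂ)) = 0 := by
    rw [Finset.sum_mul_sum, Finset.sum_comm]
    have h2 : ∀ k : ZMod (2 ^ (n + 1)),
        ∑ j, (w j : ℂ) * (ZMod.stdAddChar (N := 2 ^ (n + 1)) j : ℂ) *
          ((u k : ℂ) * (ZMod.stdAddChar (N := 2 ^ (n + 1)) (-k) : ℂ)) =
        ∑ l, (w (k + l) : ℂ) * (u k : ℂ) * (ZMod.stdAddChar (N := 2 ^ (n + 1)) l : ℂ) := by
      intro k
      rw [← Equiv.sum_comp (Equiv.addLeft k)]
      refine Finset.sum_congr rfl fun l _ => ?_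
      rw [Equiv.coe_addLeft]
      have h3 : (ZMod.stdAddChar (N := 2 ^ (n + 1)) (k + l) : ℂ) *
          (ZMod.stdAddChar (N := 2 ^ (n + 1)) (-k) : ℂ) =
          (ZMod.stdAddChar (N := 2 ^ (n + 1)) l : ℂ) := by
        rw [← AddChar.map_add_eq_mul, add_comm k l, add_neg_cancel_right]
      calc _ = (w (k + l) : ℂ) * (u k : ℂ) *
            ((ZMod.stdAddChar (N := 2 ^ (n + 1)) (k + l) : ℂ) *
              (ZMod.stdAddChar (N := 2 ^ (n + 1)) (-k) : ℂ)) := by ring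
        _ = _ := by rw [h3]
    rw [Finset.sum_congr rfl fun k _ => h2 k, Finset.sum_comm]
    refine Finset.sum_eq_zero fun l _ => ?_
    rw [← Finset.sum_mul]
    have h4 : ∑ k, (w (k + l) : ℂ) * (u k : ℂ) = ((∑ k, w (k + l) * u k : ℚ) : ℂ) := by
      push_cast
      rfl
    rw [h4, h l, Rat.cast_zero, zero_mul]
  rcases mul_eq_zero.1 h1 with h2 | h2
  · exact Or.inl (zero_of_char w hw h2)
  · right
    have h3 : ∑ k, ((fun k => u (-k)) k : ℂ) *
        (ZMod.stdAddChar (N := 2 ^ (n + 1)) k : ℂ) = 0 := by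
      rw [← Equiv.sum_comp (Equiv.neg (ZMod (2 ^ (n + 1))))]
      rw [← h2]
      refine Finset.sum_congr rfl fun k _ => ?_
      simp only [Equiv.neg_apply, neg_neg]
    have hu' : ∀ k, (fun k => u (-k)) (k + ((2 ^ n : ℕ) : ZMod (2 ^ (n + 1)))) =
        -(fun k => u (-k)) k := by
      intro k
      change u (-(k + _)) = -u (-k)
      have h4 : (-k : ZMod (2 ^ (n + 1))) = -(k + ((2 ^ n : ℕ) : ZMod (2 ^ (n + 1)))) +
        ((2 ^ n : ℕ) : ZMod (2 ^ (n + 1))) := by ring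
      rw [h4, hu, neg_neg]
    have h4 := zero_of_char (fun k => u (-k)) hu' h3
    funext k
    have h5 := congrFun h4 (-k)
    simp only [neg_neg, Pi.zero_apply] at h5
    exact h5

end fourier

theorem irreducible_of_cycle {E : Type} [Field E] [NumberField E] [IsCMField E]
    (h : IsTwoPowerCycle E) : IsIrreducibleCM E := by
  classical
  obtain ⟨⟨n, hn⟩, g, hg⟩ := h
  obtain ⟨φ₀⟩ := exists_emb E
  have hg' : ∀ ψ : E →+* ℂ, ∃ k : ℕ, (ac g)^[k] φ₀ = ψ := fun ψ => hg φ₀ ψ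
  -- the period
  set N := 2 ^ (n + 1) with hN
  have hcard : Nat.card (E →+* ℂ) = N := by rw [card_X, hn]
  have hper : φ₀ ∈ periodicPts (ac g) := by
    obtain ⟨k, hk⟩ := hg' ((pe g).symm φ₀)
    refine ⟨k + 1, Nat.succ_pos k, ?_⟩
    change (ac g)^[k + 1] φ₀ = φ₀
    rw [iterate_succ_apply', hk]
    exact (pe g).apply_symm_apply φ₀
  have hmin : minimalPeriod (ac g) φ₀ = N := by
    have hpos := minimalPeriod_pos_of_mem_periodicPts hper
    have hb : Bijective (fun k : Fin (minimalPeriod (ac g) φ₀) => (ac g)^[k] φ₀) := by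
      refine ⟨fun a b hab => ?_, fun ψ => ?_⟩
      · exact Fin.ext (iterate_injOn_Iio_minimalPeriod a.2 b.2 hab)
      · obtain ⟨k, hk⟩ := hg' ψ
        refine ⟨⟨k % minimalPeriod (ac g) φ₀, Nat.mod_lt _ hpos⟩, ?_⟩
        rw [← hk]
        exact iterate_mod_minimalPeriod_eq
    have h1 := Nat.card_congr (Equiv.ofBijective _ hb)
    rw [Nat.card_fin, hcard] at h1
    exact h1
  have hN0 : (ac g)^[N] φ₀ = φ₀ := by
    rw [← hmin]
    exact iterate_minimalPeriod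
  have hdvd : ∀ k : ℕ, (ac g)^[k] φ₀ = φ₀ → N ∣ k := by
    intro k hk
    rw [← hmin]
    exact IsPeriodicPt.minimalPeriod_dvd hk
  have hconj : ComplexEmbedding.conjugate φ₀ = (ac g)^[2 ^ n] φ₀ := by
    obtain ⟨k, hk⟩ := hg' (ComplexEmbedding.conjugate φ₀)
    have h1 : (ac g)^[k + k] φ₀ = φ₀ := by
      rw [iterate_add_apply, hk, ← comm_iter (c := fun φ : E →+* ℂ => ComplexEmbedding.conjugate φ)
          (τ := ac g) (fun φ => conj_comp g φ), hk]
      exact ComplexEmbedding.involutive_conjugate E φ₀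
    obtain ⟨t, ht⟩ := hdvd _ h1
    have hk2 : k = 2 ^ n * t := by
      have : N = 2 * 2 ^ n := by rw [hN]; ring
      rw [this] at ht
      have h2 : 2 * k = 2 * (2 ^ n * t) := by rw [two_mul, ht]; ring
      omega
    rcases Nat.even_or_odd' t with ⟨s, hs | hs⟩
    · exfalso
      have h2 : k = N * s := by rw [hk2, hs, hN]; ring
      rw [h2, iter_mul φ₀ hN0] at hk
      exact conj_ne φ₀ hk.symm
    · have h2 : k = 2 ^ n + N * s := by rw [hk2, hs, hN]; ring
      rw [← hk, h2, iterate_add_apply, iter_mul φ₀ hN0]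
  have hbij : Bijective (fun k : ZMod (2 ^ (n + 1)) => (ac g)^[k.val] φ₀) := by
    refine (Nat.bijective_iff_surjective_and_card _).2 ⟨fun ψ => ?_, ?_⟩
    · obtain ⟨k, hk⟩ := hg' ψ
      refine ⟨(k : ZMod (2 ^ (n + 1))), ?_⟩
      change (ac g)^[((k : ZMod (2 ^ (n + 1)))).val] φ₀ = ψ
      rw [ZMod.val_natCast, iter_mod φ₀ hN0, hk]
    · rw [Nat.card_zmod, hcard]
  have hadd : ∀ k l : ZMod (2 ^ (n + 1)), (ac g)^[(k + l).val] φ₀ =
      (ac g)^[l.val] ((ac g)^[k.val] φ₀) := by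
    intro k l
    rw [ZMod.val_add, iter_mod φ₀ hN0, add_comm, iterate_add_apply]
  have hhalf : ∀ k : ZMod (2 ^ (n + 1)),
      (ac g)^[(k + ((2 ^ n : ℕ) : ZMod (2 ^ (n + 1)))).val] φ₀ =
        ComplexEmbedding.conjugate ((ac g)^[k.val] φ₀) := by
    intro k
    rw [add_comm k, hadd, ZMod.val_natCast, iter_mod φ₀ hN0, ← hconj,
      comm_iter (c := fun φ : E →+* ℂ => ComplexEmbedding.conjugate φ)
          (τ := ac g) (fun φ => conj_comp g φ)]
  intro W hW hst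
  by_contra hcon
  push Not at hcon
  obtain ⟨hbot, v, hv, hvW⟩ := hcon
  obtain ⟨w₀, hw₀, hw₀0⟩ := Submodule.exists_mem_ne_zero_of_ne_bot hbot
  obtain ⟨u₀, hu₀, hu₀0, hu₀p⟩ := exists_perp W hW v hv hvW
  have hstn : ∀ (n : ℕ) (w : (E →+* ℂ) → ℚ), w ∈ W → (fun φ => w ((ac g)^[n] φ)) ∈ W := by
    intro n
    induction n with
    | zero => intro w hw; exact hw
    | succ n ih =>
      intro w hw
      exact hst g _ (ih w hw)
  have h0 := zero_or_zero (fun k : ZMod (2 ^ (n + 1)) => w₀ ((ac g)^[k.val] φ₀))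
    (fun k : ZMod (2 ^ (n + 1)) => u₀ ((ac g)^[k.val] φ₀))
    (fun k => by rw [hhalf, hW w₀ hw₀]) (fun k => by rw [hhalf, hu₀])
    (fun l => by
      have h2 := hu₀p _ (hstn l.val w₀ hw₀)
      rw [← (Equiv.ofBijective _ hbij).sum_comp] at h2
      simp only [Equiv.ofBijective_apply] at h2
      rw [← h2]
      exact Finset.sum_congr rfl fun k _ => by rw [hadd])
  rcases h0 with h0 | h0
  · apply hw₀0
    funext φ
    obtain ⟨k, rfl⟩ := hbij.2 φ
    exact congrFun h0 k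
  · apply hu₀0
    funext φ
    obtain ⟨k, rfl⟩ := hbij.2 φ
    exact congrFun h0 k

end Pool.Agent.K3h98.IT
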