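import Pool.Agent.TH117.BL.Defs

/-!
# Towers of factors of abelian varieties over finite fields: definitions
-/

set_option autoImplicit false

namespace Pool.Agent.K3h98.IT

open NumberField Module Pool.Agent.H204R3.CM Pool.Agent.W547.KB Pool.Agent.W495.TA
  Pool.Agent.W495.TC Pool.Agent.TH117.BL

/-- The automorphism `g` of the field of complex numbers is the identity on all the fields `φ (E)`, `φ`
a complex embedding of `E`. -/
def Fixes (g : ℂ ≃+* ℂ) (E : Type) [Field E] : Prop := ∀ (φ : E →+* ℂ) (x : E), g (φ x) = φ x

/-- A function on the complex embeddings of `E` is odd if complex conjugation changes its sign. -/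
def IsOdd {E : Type} [Field E] (m : (E →+* ℂ) → ℚ) : Prop :=
  ∀ φ, m (ComplexEmbedding.conjugate φ) = -m φ

/-- The field `E` is irreducible: the space of the odd functions on the complex embeddings of `E`, with
rational values, has no proper nonzero subspace that is stable under the automorphisms of the field of
complex numbers. -/
def IsIrreducibleCM (E : Type) [Field E] : Prop :=
  ∀ W : Submodule ℚ ((E →+* ℂ) → ℚ), (∀ m ∈ W, IsOdd m) →
    (∀ g : ℂ ≃+* ℂ, ∀ m ∈ W, (fun φ : E →+* ℂ => m ((g : ℂ →+* ℂ).comp φ)) ∈ W) →
      W = ⊥ ∨ ∀ m : (E →+* ℂ) → ℚ, IsOdd m → m ∈ W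

/-- The field `E` has degree `2 q`, where `q` is an odd prime number, and it does not contain a square
root of a negative rational number (an imaginary quadratic field). -/
def IsPrimeCM (E : Type) [Field E] [NumberField E] (q : ℕ) : Prop :=
  q.Prime ∧ q ≠ 2 ∧ finrank ℚ E = 2 * q ∧ ∀ (x : E) (r : ℚ), x ^ 2 = (r : E) → 0 ≤ r

variable {p : ℕ} [Fact p.Prime] {ν : PadicAlgCl p ≃+* ℂ}

/-- The factor with the index `i` has only trivial relations: if `e` are the exponents of a
multiplicative relation which involves only the Frobenius eigenvalues of this factor, then complex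
conjugate eigenvalues have the same exponents. -/
def IsNondegenerate (Z : RedAV p ν) (i : Z.X.I) : Prop :=
  ∀ e : Emb Z → ℕ, IsRel Z e → (∀ w, w.1 ≠ i → e w = 0) →
    ∀ φ, e ⟨i, φ⟩ = e ⟨i, ComplexEmbedding.conjugate φ⟩

/-- The CM field of the factor with the index `i` is free over the CM fields of the factors in `F`: there
is no nonzero odd function on its complex embeddings that is invariant under all automorphisms of the
field of complex numbers which are the identity on the conjugates of the CM fields of the factors
in `F`. -/
def IsFreeOver (Z : RedAV p ν) (F : Set Z.X.I) (i : Z.X.I) : Prop :=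
  ∀ m : ((Z.X.factor i).E →+* ℂ) → ℚ, IsOdd m →
    (∀ g : ℂ ≃+* ℂ, (∀ k ∈ F, Fixes g (Z.X.factor k).E) →
      ∀ φ, m ((g : ℂ →+* ℂ).comp φ) = m φ) → m = 0

/-- The set `F` of factors is a tower: it is a good set, or it is obtained from a tower by the
adjunction of a factor with only trivial relations whose CM field is free over the CM fields of the
tower. -/
inductive IsTower (Z : RedAV p ν) : Set Z.X.I → Prop
  | good (S : Set Z.X.I) : IsGoodSet Z S → IsTower Z S
  | step (F : Set Z.X.I) (i : Z.X.I) : IsTower Z F → i ∉ F → IsNondegenerate Z i →
      IsFreeOver Z F i → IsTower Z (insert i F)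

/-- The abelian variety `Y` is, over an algebraic closure, isogenous to a product of a supersingular
abelian variety and of powers of the factors of an abelian variety `Z` whose factors form a tower. -/
def IsTowerAV (Y : RedAV p ν) : Prop :=
  ∃ Z : RedAV p ν, IsTower Z Set.univ ∧ IsPowersTimesSupersingular Z Y

end Pool.Agent.K3h98.IT
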