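import Pool.Agent.K3h98.IT.Peel

/-!
# Irreducible CM fields: nondegeneracy and freeness
-/

set_option autoImplicit false

namespace Pool.Agent.K3h98.IT

open NumberField Module Pool.Agent.H204R3.CM Pool.Agent.W547.KB Pool.Agent.W495.TA
  Pool.Agent.W495.TC Pool.Agent.TH117.BL

variable {p : ℕ} [Fact p.Prime] {ν : PadicAlgCl p ≃+* ℂ} (Z : RedAV p ν)

open Classical in
/-- the odd function which is `1` at `φ`, and `-1` at the conjugate of `φ` -/
noncomputable def dlt {E : Type} [Field E] (φ : E →+* ℂ) (ψ : E →+* ℂ) : ℚ :=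
  (if ψ = φ then 1 else 0) - (if ψ = ComplexEmbedding.conjugate φ then 1 else 0)

theorem dlt_odd {E : Type} [Field E] (φ : E →+* ℂ) : IsOdd (dlt φ) := by
  intro ψ
  have e1 : (ComplexEmbedding.conjugate ψ = φ) ↔ (ψ = ComplexEmbedding.conjugate φ) := by
    constructor
    · rintro rfl; exact (ComplexEmbedding.involutive_conjugate _ ψ).symm
    · rintro rfl; exact ComplexEmbedding.involutive_conjugate _ φ
  have e2 : (ComplexEmbedding.conjugate ψ = ComplexEmbedding.conjugate φ) ↔ (ψ = φ) :=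
    (ComplexEmbedding.involutive_conjugate E).injective.eq_iff
  classical
  have h1 : dlt φ (ComplexEmbedding.conjugate ψ) = (if ψ = ComplexEmbedding.conjugate φ then 1 else 0) -
      (if ψ = φ then 1 else 0) := by
    unfold dlt
    congr 1
    · exact if_congr e1 rfl rfl
    · exact if_congr e2 rfl rfl
  rw [h1]
  unfold dlt
  rw [neg_sub]

theorem conj_ne {E : Type} [Field E] [NumberField E] [IsCMField E] (φ : E →+* ℂ) :
    ComplexEmbedding.conjugate φ ≠ φ := by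
  intro h
  apply IsCMField.complexConj_ne_one E
  ext x
  apply φ.injective
  have h1 := IsCMField.complexEmbedding_complexConj E φ x
  rw [h1]
  have h2 := RingHom.congr_fun h x
  rw [ComplexEmbedding.conjugate_coe_eq] at h2
  exact h2

theorem dlt_self {E : Type} [Field E] [NumberField E] [IsCMField E] (φ : E →+* ℂ) :
    dlt φ φ = 1 := by
  unfold dlt
  rw [if_pos rfl, if_neg (fun h => conj_ne φ h.symm), sub_zero]

theorem eq_of_dlt {E : Type} [Field E] (φ ψ : E →+* ℂ) (h : dlt φ ψ = 1) : ψ = φ := by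
  unfold dlt at h
  by_contra hne
  rw [if_neg hne] at h
  split_ifs at h <;> norm_num at h

theorem nz {A : Type*} [AddCommGroup A] (s : ℕ) (k : ℤ) (x : A) : s • (k • x) = k • (s • x) := by
  rw [← natCast_zsmul, ← natCast_zsmul, ← mul_zsmul, ← mul_zsmul, mul_comm]

/-- the relations of one factor, with rational coefficients -/
noncomputable def relW (i : Z.X.I) : Submodule ℚ (((Z.X.factor i).E →+* ℂ) → ℚ) where
  carrier := {m | IsOdd m ∧ ∃ (N s : ℕ) (m' : ((Z.X.factor i).E →+* ℂ) → ℤ), 0 < N ∧ 0 < s ∧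
    (∀ φ, (m' φ : ℚ) = N * m φ) ∧ s • ∑ φ, m' φ • hh Z ⟨i, φ⟩ = 0}
  zero_mem' := ⟨fun φ => by simp, 1, 1, 0, one_pos, one_pos, fun φ => by simp, by simp⟩
  add_mem' := by
    rintro m₁ m₂ ⟨h1, N₁, s₁, m₁', hN₁, hs₁, e1, r1⟩ ⟨h2, N₂, s₂, m₂', hN₂, hs₂, e2, r2⟩
    refine ⟨fun φ => ?_, N₁ * N₂, s₁ * s₂, fun φ => N₂ * m₁' φ + N₁ * m₂' φ,
      Nat.mul_pos hN₁ hN₂, Nat.mul_pos hs₁ hs₂, fun φ => ?_, ?_⟩
    · rw [Pi.add_apply, Pi.add_apply, h1, h2]
      ring
    · push_cast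
      rw [e1, e2, Pi.add_apply]
      ring
    · have h3 : ∑ φ, ((N₂ : ℤ) * m₁' φ + N₁ * m₂' φ) • hh Z ⟨i, φ⟩ =
          (N₂ : ℤ) • ∑ φ, m₁' φ • hh Z ⟨i, φ⟩ + (N₁ : ℤ) • ∑ φ, m₂' φ • hh Z ⟨i, φ⟩ := by
        rw [← Finset.sum_zsmul, ← Finset.sum_zsmul, ← Finset.sum_add_distrib]
        refine Finset.sum_congr rfl fun φ _ => ?_
        rw [add_zsmul, mul_zsmul, mul_zsmul]
      rw [h3, nsmul_add]
      have h4 : (s₁ * s₂) • ((N₂ : ℤ) • ∑ φ, m₁' φ • hh Z ⟨i, φ⟩) = 0 := by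
        rw [mul_comm s₁ s₂, natCast_zsmul, nsmul_left_comm, mul_nsmul', r1, nsmul_zero, nsmul_zero]
      have h5 : (s₁ * s₂) • ((N₁ : ℤ) • ∑ φ, m₂' φ • hh Z ⟨i, φ⟩) = 0 := by
        rw [natCast_zsmul, nsmul_left_comm, mul_nsmul', r2, nsmul_zero, nsmul_zero]
      rw [h4, h5, add_zero]
  smul_mem' := by
    rintro r m ⟨h1, N, s, m', hN, hs, e1, r1⟩
    refine ⟨fun φ => ?_, N * r.den, s, fun φ => r.num * m' φ, Nat.mul_pos hN r.den_pos, hs,
      fun φ => ?_, ?_⟩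
    · rw [Pi.smul_apply, Pi.smul_apply, h1, smul_neg]
    · push_cast
      rw [e1, Pi.smul_apply, smul_eq_mul]
      have h2 : (r.num : ℚ) = r * r.den := (Rat.mul_den_eq_num r).symm
      rw [h2]
      ring
    · have h3 : ∑ φ, (r.num * m' φ) • hh Z ⟨i, φ⟩ = r.num • ∑ φ, m' φ • hh Z ⟨i, φ⟩ := by
        rw [← Finset.sum_zsmul]
        exact Finset.sum_congr rfl fun φ _ => by rw [mul_zsmul]
      rw [h3, nz, r1, zsmul_zero]

theorem relW_ga (i : Z.X.I) (g : ℂ ≃+* ℂ) (m : ((Z.X.factor i).E →+* ℂ) → ℚ)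
    (hm : m ∈ relW Z i) : (fun φ => m ((g : ℂ →+* ℂ).comp φ)) ∈ relW Z i := by
  obtain ⟨h1, N, s, m', hN, hs, e1, r1⟩ := hm
  refine ⟨fun φ => ?_, N, s, fun φ => m' ((g : ℂ →+* ℂ).comp φ), hN, hs, fun φ => e1 _, ?_⟩
  · change m ((g : ℂ →+* ℂ).comp (ComplexEmbedding.conjugate φ)) = -m ((g : ℂ →+* ℂ).comp φ)
    rw [← conj_comp]
    exact h1 _
  · -- transport by the automorphism
    let e : ((Z.X.factor i).E →+* ℂ) ≃ ((Z.X.factor i).E →+* ℂ) :=
      ⟨fun φ => (g : ℂ →+* ℂ).comp φ, fun φ => ((g.symm : ℂ ≃+* ℂ) : ℂ →+* ℂ).comp φ,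
        fun φ => by ext x; exact g.symm_apply_apply _, fun φ => by
          ext x; exact g.apply_symm_apply _⟩
    let G : Additive ℂˣ →+ Additive ℂˣ :=
      MonoidHom.toAdditive (Units.map ((g.symm : ℂ ≃+* ℂ) : ℂ →* ℂ))
    have hG : ∀ w, hh Z (ga Z g.symm w) = G (hh Z w) := fun w => hh_ga Z g w
    have h2 : ∑ φ, m' ((g : ℂ →+* ℂ).comp φ) • hh Z ⟨i, φ⟩ = G (∑ φ, m' φ • hh Z ⟨i, φ⟩) := by
      rw [← Equiv.sum_comp e.symm, map_sum]
      refine Finset.sum_congr rfl fun φ _ => ?_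
      have h3 : (g : ℂ →+* ℂ).comp (e.symm φ) = φ := e.apply_symm_apply φ
      rw [h3, map_zsmul, ← hG]
      rfl
    rw [h2, ← map_nsmul, r1, map_zero]

theorem exists_emb (E : Type) [Field E] [NumberField E] : Nonempty (E →+* ℂ) := inferInstance

/-- Irreducible and not supersingular factors have only trivial relations. -/
theorem nondegenerate_of_irreducible (i : Z.X.I) (hirr : IsIrreducibleCM (Z.X.factor i).E)
    (hss : ¬ IsSupersingular Z i) : IsNondegenerate Z i := by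
  classical
  rcases hirr (relW Z i) (fun m hm => hm.1) (fun g m hm => relW_ga Z i g m hm) with h | h
  · intro e he hsupp φ
    rw [isRel_iff, mem_relZ] at he
    obtain ⟨s, hs, h1⟩ := he
    have h2 : ∑ w, (e w : ℤ) • hh Z w = ∑ φ, (e ⟨i, φ⟩ : ℤ) • hh Z ⟨i, φ⟩ := by
      rw [Fintype.sum_sigma, Finset.sum_eq_single i]
      · intro k _ hk
        refine Finset.sum_eq_zero fun φ _ => ?_
        rw [hsupp ⟨k, φ⟩ hk]
        simp
      · intro h
        exact absurd (Finset.mem_univ i) h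
    rw [h2] at h1
    set c : ((Z.X.factor i).E →+* ℂ) ≃ ((Z.X.factor i).E →+* ℂ) :=
      (ComplexEmbedding.involutive_conjugate (Z.X.factor i).E).toPerm
    have h3 : ∑ φ, (e ⟨i, ComplexEmbedding.conjugate φ⟩ : ℤ) • hh Z ⟨i, φ⟩ =
        -∑ φ, (e ⟨i, φ⟩ : ℤ) • hh Z ⟨i, φ⟩ := by
      rw [← Equiv.sum_comp c, ← Finset.sum_neg_distrib]
      refine Finset.sum_congr rfl fun φ _ => ?_
      change (e ⟨i, ComplexEmbedding.conjugate (ComplexEmbedding.conjugate φ)⟩ : ℤ) •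
        hh Z (cj Z ⟨i, φ⟩) = _
      rw [ComplexEmbedding.involutive_conjugate, hh_cj, zsmul_neg]
    have hm : (fun φ => ((e ⟨i, φ⟩ : ℤ) : ℚ) - ((e ⟨i, ComplexEmbedding.conjugate φ⟩ : ℤ) : ℚ)) ∈
        relW Z i := by
      refine ⟨fun φ => ?_, 1, s, fun φ => (e ⟨i, φ⟩ : ℤ) -
        (e ⟨i, ComplexEmbedding.conjugate φ⟩ : ℤ), one_pos, hs, fun φ => ?_, ?_⟩
      · dsimp only
        rw [ComplexEmbedding.involutive_conjugate]
        ring
      · push_cast
        ring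
      · have h4 : ∑ φ, ((e ⟨i, φ⟩ : ℤ) - (e ⟨i, ComplexEmbedding.conjugate φ⟩ : ℤ)) •
            hh Z ⟨i, φ⟩ = 2 • ∑ φ, (e ⟨i, φ⟩ : ℤ) • hh Z ⟨i, φ⟩ := by
          rw [two_nsmul]
          nth_rewrite 2 [← neg_neg (∑ φ, (e ⟨i, φ⟩ : ℤ) • hh Z ⟨i, φ⟩)]
          rw [← h3, ← sub_eq_add_neg, ← Finset.sum_sub_distrib]
          exact Finset.sum_congr rfl fun φ _ => by rw [sub_zsmul, ← sub_eq_add_neg]
        rw [h4, nsmul_left_comm, h1, nsmul_zero]
    rw [h, Submodule.mem_bot] at hm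
    have h5 := congrFun hm φ
    simp only [Pi.zero_apply, sub_eq_zero] at h5
    exact_mod_cast h5
  · exfalso
    obtain ⟨φ₀⟩ := exists_emb (Z.X.factor i).E
    obtain ⟨-, N, s, m', hN, hs, e1, r1⟩ := h _ (dlt_odd φ₀)
    have hm' : ∀ φ, m' φ = (if φ = φ₀ then (N : ℤ) else 0) -
        (if φ = ComplexEmbedding.conjugate φ₀ then (N : ℤ) else 0) := by
      intro φ
      have h1 := e1 φ
      unfold dlt at h1
      have h2 : (m' φ : ℚ) = ((if φ = φ₀ then (N : ℤ) else 0) -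
          (if φ = ComplexEmbedding.conjugate φ₀ then (N : ℤ) else 0) : ℤ) := by
        rw [h1]
        push_cast
        split_ifs <;> simp
      exact_mod_cast h2
    have h2 : ∑ φ, m' φ • hh Z ⟨i, φ⟩ = (2 * N) • hh Z ⟨i, φ₀⟩ := by
      have h3 : ∀ φ, m' φ • hh Z ⟨i, φ⟩ = (if φ = φ₀ then (N : ℤ) • hh Z ⟨i, φ⟩ else 0) -
          (if φ = ComplexEmbedding.conjugate φ₀ then (N : ℤ) • hh Z ⟨i, φ⟩ else 0) := by
        intro φ
        rw [hm', sub_zsmul]
        congr 1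
        · split_ifs
          · rfl
          · exact zero_zsmul _
        · split_ifs
          · rfl
          · exact zero_zsmul _
      rw [Finset.sum_congr rfl fun φ _ => h3 φ, Finset.sum_sub_distrib,
        Finset.sum_ite_eq' Finset.univ, Finset.sum_ite_eq' Finset.univ]
      rw [if_pos (Finset.mem_univ _), if_pos (Finset.mem_univ _)]
      have h4 : hh Z ⟨i, ComplexEmbedding.conjugate φ₀⟩ = -hh Z ⟨i, φ₀⟩ := hh_cj Z ⟨i, φ₀⟩
      rw [h4, zsmul_neg, sub_neg_eq_add, natCast_zsmul, ← two_nsmul, ← mul_nsmul']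
    rw [h2, ← mul_nsmul'] at r1
    apply hss
    refine ⟨2 * (s * N), Nat.mul_pos two_pos (Nat.mul_pos hs hN), ?_⟩
    apply φ₀.injective
    rw [map_pow, map_pow, map_pow, map_natCast]
    have h5 : (s * (2 * N)) • (2 • uu Z ⟨i, φ₀⟩) = (s * (2 * N)) • qq Z := by
      have h6 := r1
      unfold hh at h6
      rw [nsmul_sub, sub_eq_zero] at h6
      exact h6
    have h6 := congrArg (fun x => ((Additive.toMul x : ℂˣ) : ℂ)) h5
    simp only [toMul_nsmul, Units.val_pow_eq_pow_val] at h6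
    have h7 : ((φ₀ (Z.π i)) ^ 2) ^ (s * (2 * N)) = ((p : ℂ) ^ Z.a) ^ (s * (2 * N)) := h6
    rw [← pow_mul] at h7
    rw [show 2 * (2 * (s * N)) = 2 * (s * (2 * N)) by ring,
      show 2 * (s * N) = s * (2 * N) by ring]
    exact h7

/-- Irreducible CM fields are free if some automorphism moves them. -/
theorem free_of_irreducible (F : Set Z.X.I) (i : Z.X.I)
    (hirr : IsIrreducibleCM (Z.X.factor i).E)
    (hg : ∃ g : ℂ ≃+* ℂ, (∀ k ∈ F, Fixes g (Z.X.factor k).E) ∧ ¬ Fixes g (Z.X.factor i).E) :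
    IsFreeOver Z F i := by
  classical
  let U : Submodule ℚ (((Z.X.factor i).E →+* ℂ) → ℚ) :=
    { carrier := {m | IsOdd m ∧ ∀ g : ℂ ≃+* ℂ, (∀ k ∈ F, Fixes g (Z.X.factor k).E) →
        ∀ φ, m ((g : ℂ →+* ℂ).comp φ) = m φ}
      zero_mem' := ⟨fun φ => by simp, fun _ _ _ => rfl⟩
      add_mem' := by
        rintro m₁ m₂ ⟨h1, h2⟩ ⟨h3, h4⟩
        refine ⟨fun φ => ?_, fun g hg φ => ?_⟩
        · rw [Pi.add_apply, Pi.add_apply, h1, h3]; ring
        · rw [Pi.add_apply, Pi.add_apply, h2 g hg, h4 g hg]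
      smul_mem' := by
        rintro r m ⟨h1, h2⟩
        refine ⟨fun φ => ?_, fun g hg φ => ?_⟩
        · rw [Pi.smul_apply, Pi.smul_apply, h1, smul_neg]
        · rw [Pi.smul_apply, Pi.smul_apply, h2 g hg] }
  have hU : U = ⊥ ∨ ∀ m : ((Z.X.factor i).E →+* ℂ) → ℚ, IsOdd m → m ∈ U := by
    refine hirr U (fun m hm => hm.1) ?_
    rintro h m ⟨h1, h2⟩
    refine ⟨fun φ => ?_, fun g hg φ => ?_⟩
    · change m ((h : ℂ →+* ℂ).comp (ComplexEmbedding.conjugate φ)) = -m ((h : ℂ →+* ℂ).comp φ)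
      rw [← conj_comp]
      exact h1 _
    · -- conjugate the automorphism
      have h3 := h2 ((h.symm.trans g).trans h) (fun k hk φ x => by
        change h (g (h.symm (φ x))) = φ x
        have h4 := hg k hk (((h.symm : ℂ ≃+* ℂ) : ℂ →+* ℂ).comp φ) x
        have h5 : g (h.symm (φ x)) = h.symm (φ x) := h4
        rw [h5, h.apply_symm_apply]) ((h : ℂ →+* ℂ).comp φ)
      have h4 : ((((h.symm.trans g).trans h : ℂ ≃+* ℂ) : ℂ →+* ℂ).comp ((h : ℂ →+* ℂ).comp φ)) =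
          (h : ℂ →+* ℂ).comp ((g : ℂ →+* ℂ).comp φ) := by
        ext x
        change h (g (h.symm (h (φ x)))) = h (g (φ x))
        rw [h.symm_apply_apply]
      rw [h4] at h3
      exact h3
  intro m hm hinv
  rcases hU with h | h
  · have h1 : m ∈ U := ⟨hm, hinv⟩
    rw [h, Submodule.mem_bot] at h1
    exact h1
  · exfalso
    obtain ⟨g, hg1, hg2⟩ := hg
    apply hg2
    intro φ x
    have h1 := (h _ (dlt_odd φ)).2 g hg1 φ
    rw [dlt_self] at h1
    have h2 := eq_of_dlt _ _ h1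
    exact RingHom.congr_fun h2 x

end Pool.Agent.K3h98.IT
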