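import Pool.Agent.K3h98.IT.Prime

/-!
# Automorphisms that move one field and fix other fields, and towers of prime degree
-/

set_option autoImplicit false
set_option linter.unusedSectionVars false

namespace Pool.Agent.K3h98.IT

open NumberField Module Function Pool.Agent.H204R3.CM Pool.Agent.H977R3.CM
  Pool.Agent.W547.KB Pool.Agent.W495.TA Pool.Agent.W495.TC Pool.Agent.TH117.BL

/-- A field whose degree is divisible by the odd prime number `q` is moved by an automorphism which is
the identity on all given fields of degree less than `2 q`. -/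
theorem exists_moving {ι : Type*} [Fintype ι] (E : ι → Type) [∀ i, Field (E i)]
    [∀ i, NumberField (E i)] [∀ i, IsCMField (E i)] (F : Set ι) (i : ι) {q : ℕ} (hq : q.Prime)
    (hq2 : q ≠ 2) (hd : q ∣ finrank ℚ (E i)) (hF : ∀ k ∈ F, finrank ℚ (E k) < 2 * q) :
    ∃ g : ℂ ≃+* ℂ, (∀ k ∈ F, Fixes g (E k)) ∧ ¬ Fixes g (E i) := by
  classical
  obtain ⟨L, hL1, hL2, j, hj⟩ := exists_galois E
  have hcard : ∀ k, Nat.card (E k →+* L) = finrank ℚ (E k) := fun k => by
    rw [Nat.card_eq_fintype_card, card_emb j (hj k)]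
  have hfin : ∀ k, Finite (E k →+* L) := fun k => Finite.of_equiv _ (embEquiv j (hj k)).symm
  have hne : ∀ k, Nonempty (E k →+* L) := fun k => by
    rw [← Nat.card_pos_iff.trans (and_iff_left (hfin k)), hcard]
    exact finrank_pos
  obtain ⟨σ, h1, φ₀, h2⟩ := exists_elt (G := L ≃ₐ[ℚ] L) (Y := E i →+* L) hq (hne i)
    (by rwa [hcard])
  let P : ∀ k, Equiv.Perm (E k →+* L) := fun k => MulAction.toPerm σ
  have hP : ∀ k (n : ℕ) (φ : E k →+* L), (P k ^ n) φ = σ ^ n • φ := by
    intro k n φ
    have h3 : P k ^ n = MulAction.toPermHom (L ≃ₐ[ℚ] L) (E k →+* L) (σ ^ n) := by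
      rw [map_pow]
      rfl
    rw [h3]
    rfl
  have hpos : ∀ k, 0 < orderOf (P k) := fun k => orderOf_pos _
  -- the orders for the fields in `F`
  have hF' : ∀ k ∈ F, ¬ q ∣ orderOf (P k) := by
    rintro k hk ⟨n, hn⟩
    have hn0 : n ≠ 0 := by
      rintro rfl
      have := hpos k
      rw [hn, mul_zero] at this
      exact lt_irrefl _ this
    have h3 : orderOf (P k ^ n) = q := by
      rw [orderOf_pow_of_dvd hn0 (by rw [hn]; exact dvd_mul_left _ _), hn,
        Nat.mul_div_cancel _ (Nat.pos_of_ne_zero hn0)]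
    have h4 : ∃ φ : E k →+* L, σ ^ n • φ ≠ φ := by
      by_contra hall
      push Not at hall
      have h5 : P k ^ n = 1 := by
        ext1 φ
        rw [hP, hall]
        rfl
      rw [h5, orderOf_one] at h3
      exact hq.one_lt.ne h3
    obtain ⟨φ, hφ⟩ := h4
    have h5 : (fun φ : E k →+* L => σ ^ n • φ)^[q] φ = φ := by
      rw [smul_iterate]
      change (σ ^ n) ^ q • φ = φ
      rw [← pow_mul, ← hP, mul_comm n q, ← hn, pow_orderOf_eq_one]
      rfl
    have h6 := card_le (τ := fun φ : E k →+* L => σ ^ n • φ) (c := fun φ : E k →+* L => cbar φ)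
      (hfin k) (MulAction.injective _) hq hq2 (fun φ => rfl) (fun φ => cbar_cbar φ)
      (fun φ => cbar_ne φ) φ h5 hφ
    rw [hcard] at h6
    exact absurd (hF k hk) (not_lt.2 h6)
  set M : ℕ := ∏ k ∈ Finset.univ.filter (fun k => k ∈ F), orderOf (P k) with hM
  have hqM : ¬ q ∣ M := by
    rw [hM, hq.prime.dvd_finsetProd_iff]
    rintro ⟨k, hk, h3⟩
    exact hF' k (Finset.mem_filter.1 hk).2 h3
  obtain ⟨g, hg⟩ := exists_aut j ((σ ^ M : L ≃ₐ[ℚ] L) : L ≃+* L)
  refine ⟨g, fun k hk φ x => ?_, fun hfix => ?_⟩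
  · obtain ⟨φ', rfl⟩ := hj k φ
    change g (j (φ' x)) = j (φ' x)
    rw [hg]
    have h3 : orderOf (P k) ∣ M := Finset.dvd_prod_of_mem _
      (Finset.mem_filter.2 ⟨Finset.mem_univ k, hk⟩)
    have h4 : σ ^ M • φ' = φ' := by
      rw [← hP, orderOf_dvd_iff_pow_eq_one.1 h3]
      rfl
    exact congrArg j (RingHom.congr_fun h4 x)
  · have h3 : σ ^ M • φ₀ = φ₀ := by
      refine RingHom.ext fun x => ?_
      apply j.injective
      have h4 := hfix (j.comp φ₀) x
      change g (j (φ₀ x)) = j (φ₀ x) at h4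
      rw [hg] at h4
      exact h4
    apply hqM
    refine dvd_of_iter (τ := fun φ : E i →+* L => σ • φ) hq φ₀ ?_ h2 M ?_
    · rw [smul_iterate]
      exact h1 φ₀
    · rw [smul_iterate]
      exact h3

variable {p : ℕ} [Fact p.Prime] {ν : PadicAlgCl p ≃+* ℂ} (Z : RedAV p ν)

theorem free_of_prime (F : Set Z.X.I) (i : Z.X.I) {q : ℕ} (h : IsPrimeCM (Z.X.factor i).E q)
    (hF : ∀ k ∈ F, finrank ℚ (Z.X.factor k).E < 2 * q) : IsFreeOver Z F i := by
  refine free_of_irreducible Z F i (irreducible_of_prime h) ?_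
  exact exists_moving (fun k => (Z.X.factor k).E) F i h.1 h.2.1
    (by rw [h.2.2.1]; exact dvd_mul_left _ _) hF

/-- Good sets together with factors of different prime dimensions form towers. -/
theorem tower_of_primes (S : Set Z.X.I) (hS : IsGoodSet Z S) (q : Z.X.I → ℕ)
    (hq : ∀ i, i ∉ S → IsPrimeCM (Z.X.factor i).E (q i) ∧ ¬ IsSupersingular Z i ∧
      ∀ k ∈ S, finrank ℚ (Z.X.factor k).E < 2 * q i)
    (hinj : ∀ i k, i ∉ S → k ∉ S → q i = q k → i = k) : IsTower Z Set.univ := by
  classical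
  have key : ∀ n : ℕ, IsTower Z (S ∪ {i | i ∉ S ∧ q i < n}) := by
    intro n
    induction n with
    | zero =>
      have h1 : S ∪ {i | i ∉ S ∧ q i < 0} = S := by
        ext i
        simp
      rw [h1]
      exact IsTower.good S hS
    | succ n ih =>
      by_cases hn : ∃ i, i ∉ S ∧ q i = n
      · obtain ⟨i, hi, hin⟩ := hn
        have h1 : S ∪ {i | i ∉ S ∧ q i < n + 1} = insert i (S ∪ {i | i ∉ S ∧ q i < n}) := by
          ext k
          simp only [Set.mem_union, Set.mem_ofPred_eq, Set.mem_insert_iff]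
          constructor
          · rintro (h | ⟨h, h'⟩)
            · exact Or.inr (Or.inl h)
            · rcases Nat.lt_succ_iff_lt_or_eq.1 h' with h'' | h''
              · exact Or.inr (Or.inr ⟨h, h''⟩)
              · exact Or.inl (hinj k i h hi (h''.trans hin.symm))
          · rintro (rfl | h | ⟨h, h'⟩)
            · exact Or.inr ⟨hi, by omega⟩
            · exact Or.inl h
            · exact Or.inr ⟨h, by omega⟩
        rw [h1]
        obtain ⟨hp, hss, hdeg⟩ := hq i hi
        refine IsTower.step _ i ih ?_ (nondegenerate_of_irreducible Z i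
          (irreducible_of_prime hp) hss) (free_of_prime Z _ i hp ?_)
        · rintro (h | ⟨-, h⟩)
          · exact hi h
          · exact absurd hin (by omega)
        · rintro k (h | ⟨h, h'⟩)
          · exact hdeg k h
          · rw [(hq k h).1.2.2.1]
            omega
      · have h1 : S ∪ {i | i ∉ S ∧ q i < n + 1} = S ∪ {i | i ∉ S ∧ q i < n} := by
          ext k
          simp only [Set.mem_union, Set.mem_ofPred_eq]
          refine or_congr_right ⟨fun ⟨h, h'⟩ => ⟨h, ?_⟩, fun ⟨h, h'⟩ => ⟨h, by omega⟩⟩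
          by_contra h''
          exact hn ⟨k, h, by omega⟩
        rw [h1]
        exact ih
  have h2 : (Set.univ : Set Z.X.I) = S ∪ {i | i ∉ S ∧ q i < (Finset.univ.sup q) + 1} := by
    ext i
    simp only [Set.mem_univ, Set.mem_union, Set.mem_ofPred_eq, true_iff]
    by_cases hi : i ∈ S
    · exact Or.inl hi
    · exact Or.inr ⟨hi, Nat.lt_succ_of_le (Finset.le_sup (Finset.mem_univ i))⟩
  rw [h2]
  exact key _

end Pool.Agent.K3h98.IT
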