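import Pool.Agent.K3h98.IT.Defs
import Pool.Agent.H204R3.CM.Main

/-!
# Towers have elementary relations
-/

set_option autoImplicit false

namespace Pool.Agent.K3h98.IT

open NumberField Module Pool.Agent.H204R3.CM Pool.Agent.W547.KB Pool.Agent.W495.TA
  Pool.Agent.W495.TC Pool.Agent.TH117.BL

/-- Complex conjugation commutes with all automorphisms on the embeddings of a CM field. -/
theorem conj_comp {E : Type} [Field E] [NumberField E] [IsCMField E] (g : ℂ ≃+* ℂ)
    (φ : E →+* ℂ) : ComplexEmbedding.conjugate ((g : ℂ →+* ℂ).comp φ) =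
      (g : ℂ →+* ℂ).comp (ComplexEmbedding.conjugate φ) := by
  ext x
  have h1 := IsCMField.complexEmbedding_complexConj E ((g : ℂ →+* ℂ).comp φ) x
  have h2 := IsCMField.complexEmbedding_complexConj E φ x
  rw [ComplexEmbedding.conjugate_coe_eq, ← h1]
  change g (φ (IsCMField.complexConj E x)) = g (ComplexEmbedding.conjugate φ x)
  rw [ComplexEmbedding.conjugate_coe_eq, ← h2]

variable {p : ℕ} [Fact p.Prime] {ν : PadicAlgCl p ≃+* ℂ}

section basic

variable (Z : RedAV p ν)

theorem p_ne : (p : ℂ) ^ Z.a ≠ 0 := pow_ne_zero _ (Nat.cast_ne_zero.2 (Fact.out : p.Prime).ne_zero)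

/-- the complex conjugate embedding -/
def cj (w : Emb Z) : Emb Z := ⟨w.1, ComplexEmbedding.conjugate w.2⟩

theorem cj_cj (w : Emb Z) : cj Z (cj Z w) = w := by
  obtain ⟨i, φ⟩ := w
  unfold cj
  simp only
  rw [ComplexEmbedding.involutive_conjugate]

theorem eig_cj (w : Emb Z) : eig Z w * eig Z (cj Z w) = (p : ℂ) ^ Z.a := by
  have h1 := (Z.frob w.1).weil w.2
  change w.2 (Z.π w.1) * (starRingEnd ℂ) (w.2 (Z.π w.1)) = (p : ℂ) ^ Z.a
  rw [Complex.mul_conj, Complex.normSq_eq_norm_sq, h1]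
  push_cast
  rfl

theorem eig_ne (w : Emb Z) : eig Z w ≠ 0 := by
  intro h
  have h1 := eig_cj Z w
  rw [h, zero_mul] at h1
  exact p_ne Z h1.symm

/-- the number `q` as an element of the multiplicative group -/
noncomputable def qq : Additive ℂˣ := Additive.ofMul (Units.mk0 _ (p_ne Z))

/-- the eigenvalues as elements of the multiplicative group -/
noncomputable def uu (w : Emb Z) : Additive ℂˣ := Additive.ofMul (Units.mk0 _ (eig_ne Z w))

/-- the square of the eigenvalue divided by `q` -/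
noncomputable def hh (w : Emb Z) : Additive ℂˣ := 2 • uu Z w - qq Z

theorem hh_cj (w : Emb Z) : hh Z (cj Z w) = -hh Z w := by
  have h1 : uu Z w + uu Z (cj Z w) = qq Z := by
    apply Additive.toMul.injective
    apply Units.ext
    exact eig_cj Z w
  unfold hh
  have h2 : uu Z (cj Z w) = qq Z - uu Z w := eq_sub_of_add_eq' h1
  rw [h2, nsmul_sub, two_nsmul, two_nsmul]
  abel

/-- the relations -/
noncomputable def RelZ : AddSubgroup (Emb Z → ℤ) where
  carrier := {n | ∃ s : ℕ, 0 < s ∧ s • ∑ w, n w • hh Z w = 0}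
  zero_mem' := ⟨1, one_pos, by simp⟩
  add_mem' := by
    rintro n n' ⟨s, hs, h⟩ ⟨s', hs', h'⟩
    refine ⟨s * s', Nat.mul_pos hs hs', ?_⟩
    have h1 : ∑ w, (n + n') w • hh Z w = ∑ w, n w • hh Z w + ∑ w, n' w • hh Z w := by
      rw [← Finset.sum_add_distrib]
      exact Finset.sum_congr rfl fun w _ => by rw [Pi.add_apply, add_zsmul]
    rw [h1, nsmul_add]
    have h2 : (s * s') • ∑ w, n w • hh Z w = 0 := by rw [mul_comm, mul_nsmul', h, nsmul_zero]
    have h3 : (s * s') • ∑ w, n' w • hh Z w = 0 := by rw [mul_nsmul', h', nsmul_zero]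
    rw [h2, h3, add_zero]
  neg_mem' := by
    rintro n ⟨s, hs, h⟩
    refine ⟨s, hs, ?_⟩
    have h1 : ∑ w, (-n) w • hh Z w = -∑ w, n w • hh Z w := by
      rw [← Finset.sum_neg_distrib]
      exact Finset.sum_congr rfl fun w _ => by rw [Pi.neg_apply, neg_zsmul]
    rw [h1, neg_nsmul, h, neg_zero]

theorem mem_relZ (n : Emb Z → ℤ) :
    n ∈ RelZ Z ↔ ∃ s : ℕ, 0 < s ∧ s • ∑ w, n w • hh Z w = 0 := Iff.rfl

theorem isRel_iff (e : Emb Z → ℕ) : IsRel Z e ↔ (fun w => (e w : ℤ)) ∈ RelZ Z := by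
  rw [mem_relZ]
  unfold IsRel
  refine exists_congr fun s => and_congr_right fun _ => ?_
  have h1 : s • ∑ w, (e w : ℤ) • hh Z w =
      (2 * s) • (∑ w, e w • uu Z w) - (s * ∑ w, e w) • qq Z := by
    have h2 : ∀ w, (e w : ℤ) • hh Z w = 2 • (e w • uu Z w) - e w • qq Z := by
      intro w
      rw [natCast_zsmul]
      unfold hh
      rw [nsmul_sub, nsmul_left_comm]
    rw [Finset.sum_congr rfl fun w _ => h2 w, Finset.sum_sub_distrib, Finset.sum_nsmul,
      nsmul_sub, Finset.sum_nsmul_assoc, ← mul_nsmul', ← mul_nsmul', mul_comm s 2]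
  rw [h1, sub_eq_zero]
  have h3 : ((Additive.toMul ((2 * s) • (∑ w, e w • uu Z w)) : ℂˣ) : ℂ) =
      (∏ w, eig Z w ^ e w) ^ (2 * s) := by
    rw [toMul_nsmul, Units.val_pow_eq_pow_val, toMul_sum, Units.coe_prod]
    congr 1
  have h4 : ((Additive.toMul ((s * ∑ w, e w) • qq Z) : ℂˣ) : ℂ) =
      ((p : ℂ) ^ Z.a) ^ (s * ∑ w, e w) := by
    rw [toMul_nsmul, Units.val_pow_eq_pow_val]
    rfl
  rw [← h3, ← h4]
  constructor
  · intro h
    exact Additive.toMul.injective (Units.ext h)
  · intro h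
    rw [h]

theorem relZ_of_symm (n : Emb Z → ℤ) (h : ∀ w, n (cj Z w) = n w) : n ∈ RelZ Z := by
  rw [mem_relZ]
  refine ⟨2, two_pos, ?_⟩
  let e : Emb Z ≃ Emb Z := ⟨cj Z, cj Z, cj_cj Z, cj_cj Z⟩
  have h1 : ∑ w, n w • hh Z w = -∑ w, n w • hh Z w := by
    conv_lhs => rw [← Equiv.sum_comp e]
    rw [← Finset.sum_neg_distrib]
    refine Finset.sum_congr rfl fun w _ => ?_
    change n (cj Z w) • hh Z (cj Z w) = _
    rw [h, hh_cj, zsmul_neg]
  rw [two_nsmul]
  nth_rewrite 1 [h1]
  exact neg_add_cancel _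

/-- the action of the automorphisms -/
def ga (g : ℂ ≃+* ℂ) (w : Emb Z) : Emb Z := ⟨w.1, (g : ℂ →+* ℂ).comp w.2⟩

theorem ga_cj (g : ℂ ≃+* ℂ) (w : Emb Z) : ga Z g (cj Z w) = cj Z (ga Z g w) := by
  unfold ga cj
  simp only
  rw [conj_comp]

theorem ga_symm (g : ℂ ≃+* ℂ) (w : Emb Z) : ga Z g (ga Z g.symm w) = w := by
  obtain ⟨i, φ⟩ := w
  unfold ga
  simp only
  congr 1
  ext x
  exact g.apply_symm_apply _

theorem hh_ga (g : ℂ ≃+* ℂ) (w : Emb Z) : hh Z (ga Z g.symm w) =
    (MonoidHom.toAdditive (Units.map ((g.symm : ℂ ≃+* ℂ) : ℂ →* ℂ)) :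
      Additive ℂˣ →+ Additive ℂˣ) (hh Z w) := by
  let G : Additive ℂˣ →+ Additive ℂˣ :=
    MonoidHom.toAdditive (Units.map ((g.symm : ℂ ≃+* ℂ) : ℂ →* ℂ))
  have hq : G (qq Z) = qq Z := by
    apply Additive.toMul.injective
    apply Units.ext
    change g.symm ((p : ℂ) ^ Z.a) = (p : ℂ) ^ Z.a
    rw [map_pow, map_natCast]
  have hu : G (uu Z w) = uu Z (ga Z g.symm w) := by
    apply Additive.toMul.injective
    apply Units.ext
    rfl
  change _ = G (hh Z w)
  unfold hh
  rw [map_sub, map_nsmul, hq, hu]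

theorem relZ_ga (n : Emb Z → ℤ) (hn : n ∈ RelZ Z) (g : ℂ ≃+* ℂ) :
    (fun w => n (ga Z g w)) ∈ RelZ Z := by
  rw [mem_relZ] at hn ⊢
  obtain ⟨s, hs, h⟩ := hn
  refine ⟨s, hs, ?_⟩
  let e : Emb Z ≃ Emb Z := ⟨ga Z g, ga Z g.symm, fun w => ga_symm Z g.symm w, ga_symm Z g⟩
  let G : Additive ℂˣ →+ Additive ℂˣ :=
    MonoidHom.toAdditive (Units.map ((g.symm : ℂ ≃+* ℂ) : ℂ →* ℂ))
  have hG : ∀ w, hh Z (ga Z g.symm w) = G (hh Z w) := by
    intro w
    have hq : G (qq Z) = qq Z := by
      apply Additive.toMul.injective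
      apply Units.ext
      change g.symm ((p : ℂ) ^ Z.a) = (p : ℂ) ^ Z.a
      rw [map_pow, map_natCast]
    have hu : G (uu Z w) = uu Z (ga Z g.symm w) := by
      apply Additive.toMul.injective
      apply Units.ext
      rfl
    unfold hh
    rw [map_sub, map_nsmul, hq, hu]
  have h1 : ∑ w, n (ga Z g w) • hh Z w = G (∑ w, n w • hh Z w) := by
    rw [← Equiv.sum_comp e.symm, map_sum]
    refine Finset.sum_congr rfl fun w _ => ?_
    change n (ga Z g (ga Z g.symm w)) • hh Z (ga Z g.symm w) = _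
    rw [ga_symm, hG, map_zsmul]
  rw [h1, ← map_nsmul, h, map_zero]

open Classical in
/-- the relations are differences of relations with nonnegative exponents -/
theorem shift (F : Set Z.X.I) (n : Emb Z → ℤ) (hn : n ∈ RelZ Z) (hF : ∀ w, w.1 ∉ F → n w = 0) :
    ∃ (e : Emb Z → ℕ) (c : ℕ), IsRel Z e ∧ IsRel Z (fun w => if w.1 ∈ F then c else 0) ∧
      (∀ w, w.1 ∉ F → e w = 0) ∧
      ∀ w, (e w : ℤ) = n w + ((if w.1 ∈ F then c else 0 : ℕ) : ℤ) := by
  set c : ℕ := ∑ w, (n w).natAbs with hc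
  have h0 : ∀ w, 0 ≤ n w + c := by
    intro w
    have h1 : (n w).natAbs ≤ c :=
      Finset.single_le_sum (f := fun w => (n w).natAbs) (fun _ _ => Nat.zero_le _)
        (Finset.mem_univ w)
    omega
  have h1 : ∀ w, ((if w.1 ∈ F then (n w + c).toNat else 0 : ℕ) : ℤ) =
      n w + ((if w.1 ∈ F then c else 0 : ℕ) : ℤ) := by
    intro w
    by_cases h : w.1 ∈ F
    · rw [if_pos h, if_pos h, Int.toNat_of_nonneg (h0 w)]
    · rw [if_neg h, if_neg h, hF w h]
      rfl
  have h2 : (fun w : Emb Z => ((if w.1 ∈ F then c else 0 : ℕ) : ℤ)) ∈ RelZ Z :=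
    relZ_of_symm Z _ fun w => rfl
  refine ⟨fun w => if w.1 ∈ F then (n w + c).toNat else 0, c, ?_, (isRel_iff Z _).2 h2, ?_, h1⟩
  · rw [isRel_iff]
    have h3 : (fun w : Emb Z => ((if w.1 ∈ F then (n w + c).toNat else 0 : ℕ) : ℤ)) =
        n + fun w : Emb Z => ((if w.1 ∈ F then c else 0 : ℕ) : ℤ) := funext h1
    rw [h3]
    exact (RelZ Z).add_mem hn h2
  · intro w hw
    exact if_neg hw

/-- the group generated by the elementary relations -/
def Elem : AddSubgroup (Emb Z → ℤ) := AddSubgroup.closure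
    {d : Emb Z → ℤ | ∃ n : Emb Z → ℕ, IsRel Z n ∧ IsElementary Z n ∧ ∀ w, d w = n w}

open Classical in
theorem elem_symm (i : Z.X.I) (n : Emb Z → ℤ) (hi : ∀ w, w.1 ≠ i → n w = 0)
    (hs : ∀ w, n (cj Z w) = n w) : n ∈ Elem Z := by
  have hpair : ∀ w : Emb Z, (fun v => ((if v = w then 1 else 0 : ℕ) : ℤ) +
      ((if v = cj Z w then 1 else 0 : ℕ) : ℤ)) ∈ Elem Z := by
    intro w
    refine AddSubgroup.subset_closure ⟨fun v => (if v = w then 1 else 0) +
      (if v = cj Z w then 1 else 0), ?_, ?_, fun v => by push_cast; rfl⟩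
    · rw [isRel_iff]
      refine relZ_of_symm Z _ fun v => ?_
      have e1 : (cj Z v = w) ↔ (v = cj Z w) := by
        constructor
        · rintro rfl; exact (cj_cj Z v).symm
        · rintro rfl; exact cj_cj Z w
      have e2 : (cj Z v = cj Z w) ↔ (v = w) := by
        constructor
        · intro h; rw [← cj_cj Z v, h, cj_cj]
        · rintro rfl; rfl
      simp only [e1, e2]
      rw [add_comm]
    · left
      rw [Finset.sum_add_distrib, Finset.sum_ite_eq' Finset.univ, Finset.sum_ite_eq' Finset.univ]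
      simp
  have h1 : n = ∑ φ ∈ Finset.univ.filter (fun φ : (Z.X.factor i).E →+* ℂ => φ ∈ (Z.X.factor i).Φ),
      n ⟨i, φ⟩ • (fun v : Emb Z => ((if v = (⟨i, φ⟩ : Emb Z) then 1 else 0 : ℕ) : ℤ) +
        ((if v = cj Z ⟨i, φ⟩ then 1 else 0 : ℕ) : ℤ)) := by
    funext v
    rw [Finset.sum_apply]
    by_cases hv : v.1 = i
    · obtain ⟨k, ψ⟩ := v
      dsimp only at hv
      subst hv
      by_cases hψ : ψ ∈ (Z.X.factor k).Φ
      · rw [Finset.sum_eq_single ψ]
        · have h2 : (⟨k, ψ⟩ : Emb Z) ≠ cj Z ⟨k, ψ⟩ := by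
            intro h
            have h3 := eq_of_heq (Sigma.mk.inj_iff.1 h).2
            have h4 := ((Z.X.factor k).isCMType ψ).1 hψ
            rw [← h3] at h4
            exact h4 hψ
          simp only [Pi.smul_apply, smul_eq_mul, if_true, if_neg h2]
          simp
        · intro φ hφ hne
          have hφ' : φ ∈ (Z.X.factor k).Φ := (Finset.mem_filter.1 hφ).2
          have h2 : (⟨k, ψ⟩ : Emb Z) ≠ ⟨k, φ⟩ := fun h =>
            hne (eq_of_heq (Sigma.mk.inj_iff.1 h).2).symm
          have h3 : (⟨k, ψ⟩ : Emb Z) ≠ cj Z ⟨k, φ⟩ := by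
            intro h
            have h4 : ψ = ComplexEmbedding.conjugate φ := eq_of_heq (Sigma.mk.inj_iff.1 h).2
            have h5 := ((Z.X.factor k).isCMType φ).1 hφ'
            rw [← h4] at h5
            exact h5 hψ
          simp only [Pi.smul_apply, if_neg h2, if_neg h3]
          simp
        · intro h
          exact absurd (Finset.mem_filter.2 ⟨Finset.mem_univ _, hψ⟩) h
      · have hψ' : ComplexEmbedding.conjugate ψ ∈ (Z.X.factor k).Φ := by
          rw [(Z.X.factor k).isCMType, ComplexEmbedding.involutive_conjugate]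
          exact hψ
        rw [Finset.sum_eq_single (ComplexEmbedding.conjugate ψ)]
        · have h2 : (⟨k, ψ⟩ : Emb Z) ≠ ⟨k, ComplexEmbedding.conjugate ψ⟩ := by
            intro h
            have h3 := eq_of_heq (Sigma.mk.inj_iff.1 h).2
            rw [← h3] at hψ'
            exact hψ hψ'
          have h4 : (⟨k, ψ⟩ : Emb Z) = cj Z ⟨k, ComplexEmbedding.conjugate ψ⟩ :=
            (cj_cj Z ⟨k, ψ⟩).symm
          simp only [Pi.smul_apply, smul_eq_mul, if_neg h2, if_pos h4]
          have h5 := hs ⟨k, ψ⟩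
          change n ⟨k, ComplexEmbedding.conjugate ψ⟩ = n ⟨k, ψ⟩ at h5
          rw [h5]
          simp
        · intro φ hφ hne
          have hφ' : φ ∈ (Z.X.factor k).Φ := (Finset.mem_filter.1 hφ).2
          have h2 : (⟨k, ψ⟩ : Emb Z) ≠ ⟨k, φ⟩ := by
            intro h
            have h3 := eq_of_heq (Sigma.mk.inj_iff.1 h).2
            rw [← h3] at hφ'
            exact hψ hφ'
          have h3 : (⟨k, ψ⟩ : Emb Z) ≠ cj Z ⟨k, φ⟩ := by
            intro h
            have h4 : ψ = ComplexEmbedding.conjugate φ := eq_of_heq (Sigma.mk.inj_iff.1 h).2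
            apply hne
            rw [h4, ComplexEmbedding.involutive_conjugate]
          simp only [Pi.smul_apply, if_neg h2, if_neg h3]
          simp
        · intro h
          exact absurd (Finset.mem_filter.2 ⟨Finset.mem_univ _, hψ'⟩) h
    · rw [hi v hv]
      refine (Finset.sum_eq_zero fun φ _ => ?_).symm
      have h2 : v ≠ (⟨i, φ⟩ : Emb Z) := by
        rintro rfl
        exact hv rfl
      have h3 : v ≠ cj Z ⟨i, φ⟩ := by
        rintro rfl
        exact hv rfl
      simp only [Pi.smul_apply, if_neg h2, if_neg h3]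
      simp
  rw [h1]
  exact AddSubgroup.sum_mem _ fun φ _ => AddSubgroup.zsmul_mem _ (hpair _) _

/-- **Relations in a tower.** -/
theorem elem_of_tower {F : Set Z.X.I} (h : IsTower Z F) :
    ∀ n : Emb Z → ℤ, n ∈ RelZ Z → (∀ w, w.1 ∉ F → n w = 0) → n ∈ Elem Z := by
  classical
  induction h with
  | good S hS =>
    intro n hn hF
    obtain ⟨e, c, h1, h2, h3, h4⟩ := shift Z S n hn hF
    have h5 : n = (fun w => (e w : ℤ)) - fun w => ((if w.1 ∈ S then c else 0 : ℕ) : ℤ) := by
      funext w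
      rw [Pi.sub_apply, h4 w]
      ring
    rw [h5]
    refine AddSubgroup.sub_mem _ (AddSubgroup.subset_closure ⟨e, h1, Or.inr (Or.inl
      ⟨S, hS, fun w hw => ?_⟩), fun _ => rfl⟩) (AddSubgroup.subset_closure
      ⟨_, h2, Or.inr (Or.inl ⟨S, hS, fun w hw => ?_⟩), fun _ => rfl⟩)
    · by_contra hcon
      exact hw (h3 w hcon)
    · by_contra hcon
      exact hw (if_neg hcon)
  | step F i _ hi hnd hfree ih =>
    intro n hn hF
    -- the odd part is zero
    have hodd : (fun φ : (Z.X.factor i).E →+* ℂ =>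
        ((n ⟨i, φ⟩ : ℤ) : ℚ) - ((n ⟨i, ComplexEmbedding.conjugate φ⟩ : ℤ) : ℚ)) = 0 := by
      refine hfree _ (fun φ => ?_) fun g hg φ => ?_
      · rw [ComplexEmbedding.involutive_conjugate]
        ring
      · -- `n - n ∘ g` is a relation for the factor `i` alone
        have h1 : (n - fun w => n (ga Z g w)) ∈ RelZ Z :=
          (RelZ Z).sub_mem hn (relZ_ga Z n hn g)
        have h2 : ∀ w : Emb Z, w.1 ∉ ({i} : Set Z.X.I) → (n - fun w => n (ga Z g w)) w = 0 := by
          intro w hw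
          rw [Pi.sub_apply]
          by_cases hwF : w.1 ∈ F
          · have h3 : ga Z g w = w := by
              obtain ⟨k, ψ⟩ := w
              unfold ga
              congr 1
              ext x
              exact hg k hwF ψ x
            rw [h3, sub_self]
          · have h3 : w.1 ∉ insert i F := by
              rintro (h | h)
              · exact hw h
              · exact hwF h
            rw [hF w h3]
            have h4 : n (ga Z g w) = 0 := hF _ h3
            rw [h4, sub_zero]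
        obtain ⟨e, c, h3, -, h4, h5⟩ := shift Z {i} _ h1 h2
        have h6 := hnd e h3 (fun w hw => h4 w hw) φ
        have h7 := h5 ⟨i, φ⟩
        have h8 := h5 ⟨i, ComplexEmbedding.conjugate φ⟩
        rw [h6, h8] at h7
        have h9 : (n - fun w => n (ga Z g w)) ⟨i, ComplexEmbedding.conjugate φ⟩ =
            (n - fun w => n (ga Z g w)) ⟨i, φ⟩ := add_right_cancel h7
        have h10 : n ⟨i, ComplexEmbedding.conjugate φ⟩ -
            n ⟨i, (g : ℂ →+* ℂ).comp (ComplexEmbedding.conjugate φ)⟩ =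
            n ⟨i, φ⟩ - n ⟨i, (g : ℂ →+* ℂ).comp φ⟩ := h9
        rw [conj_comp]
        have h11 := congrArg (fun z : ℤ => (z : ℚ)) h10
        simp only [Int.cast_sub] at h11
        linarith
    have hsym : ∀ φ, n ⟨i, ComplexEmbedding.conjugate φ⟩ = n ⟨i, φ⟩ := by
      intro φ
      have h1 := congrFun hodd φ
      simp only [Pi.zero_apply, sub_eq_zero] at h1
      exact_mod_cast h1.symm
    set ni : Emb Z → ℤ := fun w => if w.1 = i then n w else 0 with hni
    have hnis : ∀ w, ni (cj Z w) = ni w := by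
      rintro ⟨k, ψ⟩
      simp only [hni, cj]
      by_cases hk : k = i
      · subst hk
        rw [if_pos rfl, if_pos rfl]
        exact hsym ψ
      · rw [if_neg hk, if_neg hk]
    have h1 : ni ∈ Elem Z := elem_symm Z i ni (fun w hw => if_neg hw) hnis
    have h2 : n - ni ∈ Elem Z := by
      refine ih _ ((RelZ Z).sub_mem hn (relZ_of_symm Z ni hnis)) fun w hw => ?_
      rw [Pi.sub_apply]
      by_cases hwi : w.1 = i
      · rw [hni]
        simp only [if_pos hwi, sub_self]
      · rw [hni]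
        simp only [if_neg hwi, sub_zero]
        refine hF w ?_
        rintro (h | h)
        · exact hwi h
        · exact hw h
    have h3 : n = (n - ni) + ni := (sub_add_cancel n ni).symm
    rw [h3]
    exact (Elem Z).add_mem h2 h1

theorem hasElementaryRelations (h : IsTower Z Set.univ) : HasElementaryRelations Z := by
  intro e he
  exact elem_of_tower Z h _ ((isRel_iff Z e).1 he) fun w hw => absurd (Set.mem_univ _) hw

end basic

end Pool.Agent.K3h98.IT
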