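import Pool.Agent.K3h98.IT.Quad
import Pool.Agent.K3h98.IT.Irr

/-!
# CM fields of degree twice an odd prime number
-/

set_option autoImplicit false
set_option linter.unusedSectionVars false

namespace Pool.Agent.K3h98.IT

open NumberField Module Function Pool.Agent.H204R3.CM Pool.Agent.H977R3.CM

variable {E : Type} [Field E] [NumberField E]

/-- the action of an automorphism of the complex numbers -/
def ac (g : ℂ ≃+* ℂ) (φ : E →+* ℂ) : E →+* ℂ := (g : ℂ →+* ℂ).comp φ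

theorem ac_inj (g : ℂ ≃+* ℂ) : Injective (ac (E := E) g) := fun _ _ h =>
  RingHom.ext fun x => g.injective (RingHom.congr_fun h x)

theorem ac_iter {L : Type*} [Field L] (j : L →+* ℂ) {G : Type*} [Group G]
    [MulAction G (E →+* L)] (g : ℂ ≃+* ℂ) (σ : G)
    (h : ∀ φ : E →+* L, ac g (j.comp φ) = j.comp (σ • φ)) (n : ℕ) (φ : E →+* L) :
    (ac g)^[n] (j.comp φ) = j.comp (σ ^ n • φ) := by
  induction n generalizing φ with
  | zero => rw [iterate_zero, id, pow_zero, one_smul]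
  | succ n ih => rw [iterate_succ_apply, h, ih, pow_succ, mul_smul]

theorem exists_ord {q : ℕ} (hq : q.Prime) (hd : q ∣ finrank ℚ E) :
    ∃ g : ℂ ≃+* ℂ, (∀ φ : E →+* ℂ, (ac g)^[q] φ = φ) ∧ ∃ φ : E →+* ℂ, ac g φ ≠ φ := by
  classical
  obtain ⟨L, hL1, hL2, j, hj⟩ := one_galois E
  have hcard : Nat.card (E →+* L) = finrank ℚ E := by
    rw [Nat.card_eq_fintype_card, card_emb j hj]
  have hfin : Finite (E →+* L) := Finite.of_equiv _ (embEquiv j hj).symm
  have hne : Nonempty (E →+* L) := by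
    rw [← Nat.card_pos_iff.trans (and_iff_left hfin), hcard]
    exact finrank_pos
  obtain ⟨σ, h1, φ₀, h2⟩ := exists_elt (G := L ≃ₐ[ℚ] L) (Y := E →+* L) hq hne (by rwa [hcard])
  obtain ⟨g, hg⟩ := exists_aut j (σ : L ≃+* L)
  have h3 : ∀ φ : E →+* L, ac g (j.comp φ) = j.comp (σ • φ) := fun φ =>
    RingHom.ext fun x => hg (φ x)
  refine ⟨g, fun φ => ?_, j.comp φ₀, ?_⟩
  · obtain ⟨φ', rfl⟩ := hj φ
    rw [ac_iter j g σ h3, h1]
  · rw [h3]
    intro h
    exact h2 ((embEquiv j hj).injective h)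

section main

variable [IsCMField E]

theorem card_X : Nat.card (E →+* ℂ) = finrank ℚ E := by
  rw [Nat.card_eq_fintype_card, Embeddings.card]

/-- Odd functions that are constant on half of the embeddings. -/
theorem const_ext {q : ℕ} [Fact q.Prime] (g : ℂ ≃+* ℂ) (φ₀ : E →+* ℂ)
    (hcov : Surjective (Sum.elim (fun k : ZMod q => (ac g)^[k.val] φ₀)
      (fun k : ZMod q => ComplexEmbedding.conjugate ((ac g)^[k.val] φ₀))))
    (m₁ m₂ : (E →+* ℂ) → ℚ) (h1 : IsOdd m₁) (h2 : IsOdd m₂)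
    (c1 : ∀ k : ZMod q, m₁ ((ac g)^[k.val] φ₀) = m₁ φ₀)
    (c2 : ∀ k : ZMod q, m₂ ((ac g)^[k.val] φ₀) = m₂ φ₀) (h : m₁ φ₀ = m₂ φ₀) (φ : E →+* ℂ) :
    m₁ φ = m₂ φ := by
  obtain ⟨(k | k), rfl⟩ := hcov φ
  · exact (c1 k).trans (h.trans (c2 k).symm)
  · change m₁ (ComplexEmbedding.conjugate ((ac g)^[k.val] φ₀)) =
      m₂ (ComplexEmbedding.conjugate ((ac g)^[k.val] φ₀))
    rw [h1, h2, c1, c2, h]

theorem quad_of_set {q : ℕ} [Fact q.Prime] (g : ℂ ≃+* ℂ) (φ₀ : E →+* ℂ)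
    (hcov : Surjective (Sum.elim (fun k : ZMod q => (ac g)^[k.val] φ₀)
      (fun k : ZMod q => ComplexEmbedding.conjugate ((ac g)^[k.val] φ₀))))
    (T : Set ((E →+* ℂ) → ℚ)) (hodd : ∀ m ∈ T, IsOdd m)
    (hst : ∀ h : ℂ ≃+* ℂ, ∀ m ∈ T, (fun φ => m (ac h φ)) ∈ T)
    (hc : ∀ m ∈ T, ∀ k : ZMod q, m ((ac g)^[k.val] φ₀) = m φ₀) (m : (E →+* ℂ) → ℚ)
    (hm : m ∈ T) (hm0 : m ≠ 0) : ∃ (x : E) (r : ℚ), x ^ 2 = (r : E) ∧ r < 0 := by
  refine exists_quad m hm0 (hodd m hm) fun h => ?_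
  have h1 := hst h m hm
  have h2 : m (ac h φ₀) = m φ₀ ∨ m (ac h φ₀) = -m φ₀ := by
    obtain ⟨(k | k), hk⟩ := hcov (ac h φ₀)
    · left
      rw [← hk]
      exact hc m hm k
    · right
      rw [← hk]
      change m (ComplexEmbedding.conjugate ((ac g)^[k.val] φ₀)) = _
      rw [hodd m hm, hc m hm]
  rcases h2 with h2 | h2
  · left
    exact const_ext g φ₀ hcov (fun φ => m (ac h φ)) m (hodd _ h1) (hodd m hm) (hc _ h1) (hc m hm) h2
  · right
    have h3 : IsOdd (fun φ => -m φ) := fun φ => by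
      dsimp only
      rw [hodd m hm]
    exact const_ext g φ₀ hcov (fun φ => m (ac h φ)) (fun φ => -m φ) (hodd _ h1) h3 (hc _ h1)
      (fun k => by rw [hc m hm]) h2

theorem exists_perp (W : Submodule ℚ ((E →+* ℂ) → ℚ)) (hW : ∀ m ∈ W, IsOdd m)
    (v : (E →+* ℂ) → ℚ) (hv : IsOdd v) (hvW : v ∉ W) :
    ∃ u : (E →+* ℂ) → ℚ, IsOdd u ∧ u ≠ 0 ∧ ∀ w ∈ W, ∑ φ, w φ * u φ = 0 := by
  classical
  obtain ⟨f, hf1, hf2⟩ := Submodule.exists_dual_map_eq_bot_of_notMem hvW inferInstance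
  let u' : (E →+* ℂ) → ℚ := fun φ => f (Pi.single φ 1)
  have hf : ∀ m, f m = ∑ φ, m φ * u' φ := by
    intro m
    have h1 : m = ∑ φ, m φ • (Pi.single φ 1 : (E →+* ℂ) → ℚ) := by
      funext ψ
      rw [Finset.sum_apply]
      simp only [Pi.smul_apply, Pi.single_apply, smul_eq_mul, mul_ite, mul_one, mul_zero]
      rw [Finset.sum_ite_eq]
      simp
    conv_lhs => rw [h1]
    rw [map_sum]
    exact Finset.sum_congr rfl fun φ _ => by rw [map_smul, smul_eq_mul]
  let u : (E →+* ℂ) → ℚ := fun φ => u' φ - u' (ComplexEmbedding.conjugate φ)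
  have hodd : IsOdd u := by
    intro φ
    change u' (ComplexEmbedding.conjugate φ) -
      u' (ComplexEmbedding.conjugate (ComplexEmbedding.conjugate φ)) = -(u' φ - _)
    rw [ComplexEmbedding.involutive_conjugate]
    ring
  have hu : ∀ m, IsOdd m → ∑ φ, m φ * u φ = 2 * f m := by
    intro m hm
    have h1 : ∑ φ, m φ * u' (ComplexEmbedding.conjugate φ) = -∑ φ, m φ * u' φ := by
      let c : (E →+* ℂ) ≃ (E →+* ℂ) := (ComplexEmbedding.involutive_conjugate E).toPerm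
      rw [← Equiv.sum_comp c, ← Finset.sum_neg_distrib]
      refine Finset.sum_congr rfl fun φ _ => ?_
      change m (ComplexEmbedding.conjugate φ) *
        u' (ComplexEmbedding.conjugate (ComplexEmbedding.conjugate φ)) = _
      rw [hm, ComplexEmbedding.involutive_conjugate]
      ring
    have h2 : ∑ φ, m φ * u φ = ∑ φ, m φ * u' φ - ∑ φ, m φ * u' (ComplexEmbedding.conjugate φ) := by
      rw [← Finset.sum_sub_distrib]
      exact Finset.sum_congr rfl fun φ _ => mul_sub _ _ _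
    rw [h2, h1, ← hf]
    ring
  refine ⟨u, hodd, ?_, fun w hw => ?_⟩
  · rintro h0
    have h1 := hu v hv
    rw [h0] at h1
    simp only [Pi.zero_apply, mul_zero, Finset.sum_const_zero] at h1
    apply hf1
    linarith
  · rw [hu w (hW w hw)]
    have h1 : f w ∈ W.map f := ⟨w, hw, rfl⟩
    rw [hf2, Submodule.mem_bot] at h1
    rw [h1, mul_zero]

/-- A CM field of degree twice an odd prime number without imaginary quadratic subfields is
irreducible. -/
theorem irreducible_of_prime {q : ℕ} (h : IsPrimeCM E q) : IsIrreducibleCM E := by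
  classical
  obtain ⟨hq, hq2, hdeg, hquad⟩ := h
  have hF : Fact q.Prime := ⟨hq⟩
  obtain ⟨g, hg1, φ₀, hg2⟩ := exists_ord (E := E) hq (by rw [hdeg]; exact dvd_mul_left _ _)
  have hbij : Bijective (Sum.elim (fun k : ZMod q => (ac g)^[k.val] φ₀)
      (fun k : ZMod q => ComplexEmbedding.conjugate ((ac g)^[k.val] φ₀))) :=
    coverZ (c := fun φ : E →+* ℂ => ComplexEmbedding.conjugate φ) inferInstance (ac_inj g) hq2
      (fun φ => conj_comp g φ) (fun φ => ComplexEmbedding.involutive_conjugate E φ)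
      (fun φ => conj_ne φ) φ₀ (hg1 φ₀) hg2 (by rw [card_X, hdeg])
  intro W hW hst
  by_contra hcon
  push Not at hcon
  obtain ⟨hbot, v, hv, hvW⟩ := hcon
  obtain ⟨w₀, hw₀, hw₀0⟩ := Submodule.exists_mem_ne_zero_of_ne_bot hbot
  obtain ⟨u₀, hu₀, hu₀0, hu₀p⟩ := exists_perp W hW v hv hvW
  -- correlations vanish
  have hstn : ∀ (n : ℕ) (w : (E →+* ℂ) → ℚ), w ∈ W → (fun φ => w ((ac g)^[n] φ)) ∈ W := by
    intro n
    induction n with
    | zero => intro w hw; exact hw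
    | succ n ih =>
      intro w hw
      exact hst g _ (ih w hw)
  have hcor : ∀ w ∈ W, ∀ u : (E →+* ℂ) → ℚ, IsOdd u → (∀ w ∈ W, ∑ φ, w φ * u φ = 0) →
      (∀ k : ZMod q, w ((ac g)^[k.val] φ₀) = w φ₀) ∨
        ∀ k : ZMod q, u ((ac g)^[k.val] φ₀) = u φ₀ := by
    intro w hw u hu hp
    have h1 : ∀ l : ZMod q, ∑ k : ZMod q, w ((ac g)^[(k + l).val] φ₀) *
        u ((ac g)^[k.val] φ₀) = 0 := by
      intro l
      have h2 := hp _ (hstn l.val w hw)
      rw [← (Equiv.ofBijective _ hbij).sum_comp, Fintype.sum_sum_type] at h2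
      simp only [Equiv.ofBijective_apply, Sum.elim_inl, Sum.elim_inr] at h2
      have h3 : ∀ k : ZMod q,
          w ((ac g)^[l.val] (ComplexEmbedding.conjugate ((ac g)^[k.val] φ₀))) *
            u (ComplexEmbedding.conjugate ((ac g)^[k.val] φ₀)) =
          w ((ac g)^[l.val] ((ac g)^[k.val] φ₀)) * u ((ac g)^[k.val] φ₀) := by
        intro k
        rw [hu, ← comm_iter (c := fun φ : E →+* ℂ => ComplexEmbedding.conjugate φ)
          (τ := ac g) (fun φ => conj_comp g φ), hW w hw]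
        ring
      rw [Finset.sum_congr rfl fun k _ => h3 k, ← two_mul] at h2
      have h4 := (mul_eq_zero.1 h2).resolve_left two_ne_zero
      rw [← h4]
      refine Finset.sum_congr rfl fun k _ => ?_
      rw [← iterate_add_apply, ZMod.val_add, iter_mod φ₀ (hg1 φ₀), add_comm]
    have h5 := const_or_const (fun k : ZMod q => w ((ac g)^[k.val] φ₀))
      (fun k : ZMod q => u ((ac g)^[k.val] φ₀)) h1
    simp only [ZMod.val_zero, iterate_zero, id] at h5
    exact h5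
  have hfinal : ∃ (x : E) (r : ℚ), x ^ 2 = (r : E) ∧ r < 0 := by
    by_cases hall : ∀ w ∈ W, ∀ k : ZMod q, w ((ac g)^[k.val] φ₀) = w φ₀
    · exact quad_of_set g φ₀ hbij.2 (W : Set ((E →+* ℂ) → ℚ)) hW hst hall w₀ hw₀ hw₀0
    · push Not at hall
      obtain ⟨w₁, hw₁, k₁, hk₁⟩ := hall
      refine quad_of_set g φ₀ hbij.2
        {u | IsOdd u ∧ ∀ w ∈ W, ∑ φ, w φ * u φ = 0} (fun u hu => hu.1) ?_ ?_ u₀ ⟨hu₀, hu₀p⟩ hu₀0
      · rintro h u ⟨h1, h2⟩
        refine ⟨fun φ => ?_, fun w hw => ?_⟩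
        · change u (ac h (ComplexEmbedding.conjugate φ)) = -u (ac h φ)
          have h3 : ac h (ComplexEmbedding.conjugate φ) = ComplexEmbedding.conjugate (ac h φ) :=
            (conj_comp h φ).symm
          rw [h3, h1]
        · rw [← h2 _ (hst h.symm w hw), ← Equiv.sum_comp (pe h) (fun φ : E →+* ℂ =>
            w (((h.symm : ℂ ≃+* ℂ) : ℂ →+* ℂ).comp φ) * u φ)]
          refine Finset.sum_congr rfl fun φ _ => ?_
          change w φ * u (ac h φ) = w (ac h.symm (ac h φ)) * u (ac h φ)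
          congr 2
          exact RingHom.ext fun x => (h.symm_apply_apply _).symm
      · rintro u ⟨h1, h2⟩
        rcases hcor w₁ hw₁ u h1 h2 with h3 | h3
        · exact absurd (h3 k₁) hk₁
        · exact h3
  obtain ⟨x, r, hx, hr⟩ := hfinal
  exact absurd (hquad x r hx) (not_le.2 hr)

end main

end Pool.Agent.K3h98.IT
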