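import Pool.Agent.K3h98.IT.Peel
import Pool.Agent.K3h98.IT.Comb
import Pool.Agent.H204R3.CM.Disc
import Pool.Agent.H204R3.CM.Nondeg
import Pool.Agent.H977R3.CM.Aut

/-!
# Semi-invariant functions give imaginary quadratic subfields
-/

set_option autoImplicit false

namespace Pool.Agent.K3h98.IT

open NumberField Module Pool.Agent.H204R3.CM Pool.Agent.H977R3.CM

variable {E : Type} [Field E] [NumberField E]

theorem one_galois (E : Type) [Field E] [NumberField E] :
    ∃ (L : IntermediateField ℚ (AlgebraicClosure ℚ)) (_ : NumberField L) (_ : IsGalois ℚ L)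
      (j : L →+* ℂ), ∀ ψ : E →+* ℂ, ∃ φ : E →+* L, j.comp φ = ψ := by
  obtain ⟨L, h1, h2, j, h⟩ := exists_galois (fun _ : Unit => E)
  exact ⟨L, h1, h2, j, fun ψ => h () ψ⟩

/-- Nonzero functions on the embeddings give nonzero sums (Dedekind). -/
theorem exists_sum_ne (m : (E →+* ℂ) → ℚ) (hm : m ≠ 0) :
    ∃ y : E, ∑ φ : E →+* ℂ, (m φ : ℂ) * φ y ≠ 0 := by
  by_contra h
  push Not at h
  apply hm
  have h1 := linearIndependent_monoidHom E ℂ
  have h2 : LinearIndependent ℂ (fun φ : E →+* ℂ => ((φ : E →* ℂ) : E → ℂ)) :=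
    h1.comp (fun φ : E →+* ℂ => (φ : E →* ℂ)) (fun φ ψ hh => RingHom.ext fun x =>
      DFunLike.congr_fun hh x)
  rw [Fintype.linearIndependent_iff] at h2
  funext φ
  have h3 := h2 (fun φ => (m φ : ℂ)) (by
    funext y
    rw [Finset.sum_apply]
    exact h y) φ
  exact_mod_cast h3

/-- The permutation of the embeddings. -/
def pe (g : ℂ ≃+* ℂ) : (E →+* ℂ) ≃ (E →+* ℂ) :=
  ⟨fun φ => (g : ℂ →+* ℂ).comp φ, fun φ => ((g.symm : ℂ ≃+* ℂ) : ℂ →+* ℂ).comp φ,
    fun _ => RingHom.ext fun _ => g.symm_apply_apply _,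
    fun _ => RingHom.ext fun _ => g.apply_symm_apply _⟩

/-- Semi-invariant odd functions give square roots of negative rational numbers. -/
theorem exists_quad [IsCMField E] (m : (E →+* ℂ) → ℚ) (hm : m ≠ 0) (hodd : IsOdd m)
    (hsemi : ∀ g : ℂ ≃+* ℂ, (∀ φ, m ((g : ℂ →+* ℂ).comp φ) = m φ) ∨
      ∀ φ, m ((g : ℂ →+* ℂ).comp φ) = -m φ) : ∃ (x : E) (r : ℚ), x ^ 2 = (r : E) ∧ r < 0 := by
  classical
  obtain ⟨y, hy⟩ := exists_sum_ne m hm
  obtain ⟨L, hL1, hL2, j, hj⟩ := one_galois E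
  obtain ⟨φ₀, hφ₀⟩ : ∃ φ, m φ ≠ 0 := Function.ne_iff.1 hm
  set t : ℂ := ∑ φ : E →+* ℂ, (m φ : ℂ) * φ y with ht
  -- the action on `t`
  have hgt : ∀ (g : ℂ ≃+* ℂ) (s : ℚ), (∀ φ, m ((g : ℂ →+* ℂ).comp φ) = s * m φ) → s * s = 1 →
      g t = s * t := by
    intro g s hs hss
    rw [ht, map_sum, Finset.mul_sum, ← Equiv.sum_comp (pe g)
      (fun φ : E →+* ℂ => (s : ℂ) * ((m φ : ℂ) * φ y))]
    refine Finset.sum_congr rfl fun φ _ => ?_
    change g ((m φ : ℂ) * φ y) = (s : ℂ) * ((m ((g : ℂ →+* ℂ).comp φ) : ℂ) * g (φ y))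
    rw [hs, map_mul, map_ratCast]
    push_cast
    have h1 : (s : ℂ) * s = 1 := by exact_mod_cast hss
    calc (m φ : ℂ) * g (φ y) = ((s : ℂ) * s) * ((m φ : ℂ) * g (φ y)) := by rw [h1, one_mul]
      _ = _ := by ring
  have hgt2 : ∀ g : ℂ ≃+* ℂ, g t = t ∨ g t = -t := by
    intro g
    rcases hsemi g with h | h
    · left
      have h1 := hgt g 1 (fun φ => by rw [h, one_mul]) (by norm_num)
      rwa [Rat.cast_one, one_mul] at h1
    · right
      have h1 := hgt g (-1) (fun φ => by rw [h]; ring) (by norm_num)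
      rw [h1]
      push_cast
      ring
  have hfix : ∀ g : ℂ ≃+* ℂ, (g : ℂ →+* ℂ).comp φ₀ = φ₀ → g t = t := by
    intro g hg
    rcases hsemi g with h | h
    · have h1 := hgt g 1 (fun φ => by rw [h, one_mul]) (by norm_num)
      rwa [Rat.cast_one, one_mul] at h1
    · exfalso
      have h1 := h φ₀
      rw [hg] at h1
      apply hφ₀
      linarith
  -- conjugation
  have hconj : (starRingEnd ℂ) t = -t := by
    let c : (E →+* ℂ) ≃ (E →+* ℂ) := (ComplexEmbedding.involutive_conjugate E).toPerm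
    rw [ht, map_sum, ← Equiv.sum_comp c, ← Finset.sum_neg_distrib]
    refine Finset.sum_congr rfl fun φ _ => ?_
    change (starRingEnd ℂ) ((m (ComplexEmbedding.conjugate φ) : ℂ) *
      (starRingEnd ℂ) (φ y)) = -((m φ : ℂ) * φ y)
    rw [hodd, map_mul, Complex.conj_conj]
    have h1 : (starRingEnd ℂ) (((-m φ : ℚ) : ℂ)) = ((-m φ : ℚ) : ℂ) := map_ratCast _ _
    rw [h1]
    push_cast
    ring
  -- the field `L`
  obtain ⟨τ, hτ⟩ : ∃ τ : L, j τ = t := by
    choose f hf using hj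
    refine ⟨∑ φ : E →+* ℂ, (m φ : L) * f φ y, ?_⟩
    rw [map_sum, ht]
    refine Finset.sum_congr rfl fun φ _ => ?_
    rw [map_mul, map_ratCast]
    have h1 := RingHom.congr_fun (hf φ) y
    rw [← h1]
    rfl
  obtain ⟨φ₁, hφ₁⟩ := hj φ₀
  -- `τ` is in the image of `E`
  have hτE : ∃ x : E, φ₁ x = τ := by
    let φ' : E →ₐ[ℚ] L := RingHom.equivRatAlgHom E L φ₁
    have h1 : τ ∈ φ'.fieldRange := by
      rw [← IsGalois.fixedField_fixingSubgroup φ'.fieldRange]
      rw [IntermediateField.mem_fixedField_iff]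
      intro σ hσ
      rw [IntermediateField.mem_fixingSubgroup_iff] at hσ
      obtain ⟨g, hg⟩ := exists_aut j (σ : L ≃+* L)
      have h2 : (g : ℂ →+* ℂ).comp φ₀ = φ₀ := by
        ext x
        change g (φ₀ x) = φ₀ x
        rw [← hφ₁]
        change g (j (φ₁ x)) = j (φ₁ x)
        rw [hg]
        congr 1
        exact hσ (φ₁ x) ⟨x, rfl⟩
      have h3 := hfix g h2
      rw [← hτ, hg] at h3
      exact j.injective h3
    obtain ⟨x, hx⟩ := h1
    exact ⟨x, hx⟩
  obtain ⟨x, hx⟩ := hτE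
  -- the square is rational
  have hsq : ∃ r : ℚ, τ ^ 2 = (r : L) := by
    have h1 : τ ^ 2 ∈ (⊥ : IntermediateField ℚ L) := by
      rw [IsGalois.mem_bot_iff_fixed]
      intro σ
      obtain ⟨g, hg⟩ := exists_aut j (σ : L ≃+* L)
      have h2 : g (j τ) = j (σ τ) := hg τ
      rw [map_pow]
      rcases hgt2 g with h | h
      · rw [← hτ, h2] at h
        rw [j.injective h]
      · rw [← hτ, h2, ← map_neg] at h
        rw [j.injective h, neg_sq]
    rw [IntermediateField.mem_bot] at h1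
    obtain ⟨r, hr⟩ := h1
    exact ⟨r, by rw [← hr, eq_ratCast]⟩
  obtain ⟨r, hr⟩ := hsq
  refine ⟨x, r, ?_, ?_⟩
  · apply φ₁.injective
    rw [map_pow, hx, hr, map_ratCast]
  · have h1 : t ^ 2 = (r : ℂ) := by
      rw [← hτ, ← map_pow, hr, map_ratCast]
    have h2 : (t * (starRingEnd ℂ) t) = ((-r : ℚ) : ℂ) := by
      rw [hconj]
      push_cast
      rw [← h1]
      ring
    rw [Complex.mul_conj] at h2
    have h3 : Complex.normSq t = ((-r : ℚ) : ℝ) := by exact_mod_cast h2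
    have h4 : 0 < Complex.normSq t := Complex.normSq_pos.2 hy
    rw [h3] at h4
    have h5 : (0 : ℚ) < -r := by exact_mod_cast h4
    linarith

end Pool.Agent.K3h98.IT
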